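import Pool.Agent.H85.SD.Defs

/-!
helper89: the polynomial calculus with products of arbitrarily many conditions (Sigma-Pi-Sigma lines).
-/

set_option autoImplicit false
open scoped Classical

namespace SizeDegree

/-- A line of the polynomial calculus with products over the field with `p` elements: a formal linear combination
`∑_M c_M ∏_(g ∈ M) g` (meaning: this is equal to 0).  A product `M` is a finite set of conditions, of any size, and its
coefficient `c_M` is a function. -/
abbrev PLine (p n : ℕ) := Finset (Pt n → ZMod p) →₀ (Pt n → ZMod p)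

/-- The value of the line at the assignment `x`. -/
noncomputable def PLine.val {p n : ℕ} (P : PLine p n) (x : Pt n) : ZMod p := P.sum fun M c => c x * ∏ g ∈ M, g x

/-- All products of the line are multiplied by the product `L`. -/
noncomputable def PLine.times {p n : ℕ} (P : PLine p n) (L : Finset (Pt n → ZMod p)) : PLine p n :=
  P.mapDomain fun M => M ∪ L

/-- All coefficients of the line are multiplied by the function `h`. -/
noncomputable def PLine.coef {p n : ℕ} (P : PLine p n) (h : Pt n → ZMod p) : PLine p n :=
  P.mapRange (fun c => h * c) (mul_zero h)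

/-- The conditions `the literal l is false` for the literals `l` of the clause. -/
noncomputable def Clause.neg (p : ℕ) {n : ℕ} (C : Clause n) : Finset (Pt n → ZMod p) :=
  C.image fun l => fun x => if x l.1 = l.2 then 0 else 1

/-- The lines derived from the CNF `Φ` by the polynomial calculus with products; all products which occur belong to `𝓜`,
and the coefficients have degree at most `t`.
Axioms: `clause`: the products which contain the conditions that all literals of some clause are false; `ident`: local
identities `Q.times L`, where `Q` is a line with at most `s` conditions in its products and with the value 0 at all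
assignments, and `L` is any product; `span`: `M - M'` if the functions `1 - g`, `g ∈ M`, and the functions `1 - g`, `g ∈ M'`,
have the same linear combinations.
Rules: `add`: sums of lines; `coef`: multiplication of the coefficients by a function of degree at most `t`; `times`:
multiplication of the products by a condition; `prod`: multiplication of the products by a product in `𝓜`. -/
inductive PDerives {p n m : ℕ} (Φ : Fin m → Clause n) (t s : ℕ) (𝓜 : Finset (Finset (Pt n → ZMod p))) : PLine p n → Prop
  | clause (j : Fin m) {M : Finset (Pt n → ZMod p)} : M ∈ 𝓜 → Clause.neg p (Φ j) ⊆ M →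
      PDerives Φ t s 𝓜 (Finsupp.single M 1)
  | ident (L : Finset (Pt n → ZMod p)) (Q : PLine p n) : (∀ M, DegLE t (Q M)) → (Q.support.biUnion id).card ≤ s →
      (∀ x, Q.val x = 0) → (∀ M ∈ Q.support, M ∪ L ∈ 𝓜) → PDerives Φ t s 𝓜 (Q.times L)
  | span {M M' : Finset (Pt n → ZMod p)} : M ∈ 𝓜 → M' ∈ 𝓜 →
      Submodule.span (ZMod p) {u | ∃ g ∈ M, u = 1 - g} = Submodule.span (ZMod p) {u | ∃ g ∈ M', u = 1 - g} →
      PDerives Φ t s 𝓜 (Finsupp.single M 1 - Finsupp.single M' 1)
  | add {P Q : PLine p n} : PDerives Φ t s 𝓜 P → PDerives Φ t s 𝓜 Q → PDerives Φ t s 𝓜 (P + Q)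
  | coef (h : Pt n → ZMod p) {P : PLine p n} : PDerives Φ t s 𝓜 P → DegLE t h → (∀ M, DegLE t (h * P M)) →
      PDerives Φ t s 𝓜 (P.coef h)
  | times (g : Pt n → ZMod p) {P : PLine p n} : PDerives Φ t s 𝓜 P → (∀ M ∈ P.support, M ∪ {g} ∈ 𝓜) →
      PDerives Φ t s 𝓜 (P.times {g})
  | prod {L : Finset (Pt n → ZMod p)} {P : PLine p n} : PDerives Φ t s 𝓜 P → L ∈ 𝓜 → (∀ M ∈ P.support, M ∪ L ∈ 𝓜) →
      PDerives Φ t s 𝓜 (P.times L)

/-- The CNF `Φ` has a refutation with at most `N` distinct products of conditions of degree at most `e` (and any number of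
lines): the line `1 = 0` is derived. -/
def PRefutes {n m : ℕ} (p e t s : ℕ) (Φ : Fin m → Clause n) (N : ℕ) : Prop :=
  ∃ 𝓜 : Finset (Finset (Pt n → ZMod p)), 𝓜.card ≤ N ∧ (∀ M ∈ 𝓜, ∀ g ∈ M, Cond e g) ∧
    PDerives Φ t s 𝓜 (Finsupp.single ∅ 1)

end SizeDegree
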