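import Pool.Agent.H85.SD.Thm
import Pool.Agent.H89.SD.GDefs

/-!
helper89: soundness modulo `K` of the polynomial calculus with products of arbitrarily many conditions.
-/

set_option autoImplicit false
open scoped Classical

namespace SizeDegree

open H85SD

section abstr
variable {p : ℕ} {R : Type} [CommRing R] [Algebra (ZMod p) R] [DecidableEq R]

/-- `a M` is a good approximation of the product `M` for the function `f`. -/
structure GApp (T : TB p R) (W : ℕ) (f : R) (a : Finset R → R) (M : Finset R) : Prop where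
  deg : a M ∈ T.P W
  com : ∃ (mm : ℕ) (c g : Fin mm → R), (∀ r, c r ∈ T.P W) ∧ (∀ r, g r ∈ M) ∧ 1 - a M = ∑ r, c r * (1 - g r)
  kil : ∀ g ∈ M, f * (a M * (1 - g)) ∈ T.K

variable (T : TB p R) {D W e t s : ℕ} {f : R} {a : Finset R → R}

theorem one_sub_mem {e : ℕ} {g : R} (hg : g ∈ T.P e) : 1 - g ∈ T.P e :=
  (T.P e).sub_mem (T.mono (Nat.zero_le e) T.one) hg

/-- if `f a_M z (1 - g) ∈ K` for all `g ∈ M'` then `f a_M z (1 - a_M') ∈ K` -/
theorem gA {b : ℕ} {M M' : Finset R} (hf : f ∈ T.P D) (haM : a M ∈ T.P W) (hM' : GApp T W f a M')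
    (hM'e : ∀ g ∈ M', g ∈ T.P e) {z : R} (hz : z ∈ T.P b) (h : ∀ g ∈ M', f * a M * z * (1 - g) ∈ T.K)
    (hd : D + W + b + e + W ≤ T.d) : f * a M * z * (1 - a M') ∈ T.K := by
  obtain ⟨mm, c, g, hc, hg, hsum⟩ := hM'.com
  rw [hsum, Finset.mul_sum]
  refine Submodule.sum_mem _ fun r _ => ?_
  have h1 := T.abs (h (g r) (hg r)) (T.mul (T.mul (T.mul hf haM) hz) (one_sub_mem T (hM'e _ (hg r)))) (hc r) hd
  have h2 : f * a M * z * (c r * (1 - g r)) = f * a M * z * (1 - g r) * c r := by ring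
  rw [h2]
  exact h1

/-- multiplication by one more condition -/
theorem gB {M : Finset R} {g : R} (hf : f ∈ T.P D) (hM : GApp T W f a M) (hM' : GApp T W f a (M ∪ {g}))
    (hMe : ∀ g' ∈ M ∪ {g}, g' ∈ T.P e) (hMi : g * g = g) (hd : D + W + e + e + W ≤ T.d) :
    f * a (M ∪ {g}) - f * a M * g ∈ T.K := by
  have hge : g ∈ T.P e := hMe g (Finset.mem_union_right _ (Finset.mem_singleton_self g))
  have h1 : f * a (M ∪ {g}) * 1 * (1 - a M) ∈ T.K := by
    refine gA T hf hM'.deg hM (fun g' hg' => hMe g' (Finset.mem_union_left _ hg')) T.one (fun g' hg' => ?_) (by omega)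
    rw [mul_one, mul_assoc]
    exact hM'.kil g' (Finset.mem_union_left _ hg')
  have h2 : f * (a (M ∪ {g}) * (1 - g)) * a M ∈ T.K :=
    T.abs (hM'.kil g (Finset.mem_union_right _ (Finset.mem_singleton_self g)))
      (T.mul hf (T.mul hM'.deg (one_sub_mem T hge))) hM.deg (by omega)
  have h3 : f * a M * g * (1 - a (M ∪ {g})) ∈ T.K := by
    refine gA T hf hM.deg hM' hMe hge (fun g' hg' => ?_) (by omega)
    rcases Finset.mem_union.1 hg' with h | h
    · have h4 := T.abs (hM.kil g' h) (T.mul hf (T.mul hM.deg (one_sub_mem T (hMe g' hg')))) hge (by omega)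
      have h5 : f * a M * g * (1 - g') = f * (a M * (1 - g')) * g := by ring
      rw [h5]
      exact h4
    · rw [Finset.mem_singleton.1 h]
      have h5 : f * a M * g * (1 - g) = f * a M * (g - g * g) := by ring
      rw [h5, hMi, sub_self, mul_zero]
      exact T.K.zero_mem
  have h6 : f * a (M ∪ {g}) - f * a M * g =
      f * a (M ∪ {g}) * 1 * (1 - a M) + f * (a (M ∪ {g}) * (1 - g)) * a M - f * a M * g * (1 - a (M ∪ {g})) := by ring
  rw [h6]
  exact T.K.sub_mem (T.K.add_mem h1 h2) h3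

/-- multiplication by a product -/
theorem gP {M L : Finset R} (hf : f ∈ T.P D) (hM : GApp T W f a M) (hL : GApp T W f a L) (hM' : GApp T W f a (M ∪ L))
    (hMe : ∀ g' ∈ M ∪ L, g' ∈ T.P e) (hd : D + W + W + e + W ≤ T.d) : f * a (M ∪ L) - f * a M * a L ∈ T.K := by
  have h1 : f * a (M ∪ L) * 1 * (1 - a M) ∈ T.K := by
    refine gA T hf hM'.deg hM (fun g' hg' => hMe g' (Finset.mem_union_left _ hg')) T.one (fun g' hg' => ?_) (by omega)
    rw [mul_one, mul_assoc]
    exact hM'.kil g' (Finset.mem_union_left _ hg')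
  have h2 : f * a (M ∪ L) * a M * (1 - a L) ∈ T.K := by
    refine gA T hf hM'.deg hL (fun g' hg' => hMe g' (Finset.mem_union_right _ hg')) hM.deg (fun g' hg' => ?_) (by omega)
    have h4 := T.abs (hM'.kil g' (Finset.mem_union_right _ hg'))
      (T.mul hf (T.mul hM'.deg (one_sub_mem T (hMe g' (Finset.mem_union_right _ hg'))))) hM.deg (by omega)
    have h5 : f * a (M ∪ L) * a M * (1 - g') = f * (a (M ∪ L) * (1 - g')) * a M := by ring
    rw [h5]
    exact h4
  have h3 : f * a M * a L * (1 - a (M ∪ L)) ∈ T.K := by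
    refine gA T hf hM.deg hM' hMe hL.deg (fun g' hg' => ?_) (by omega)
    rcases Finset.mem_union.1 hg' with h | h
    · have h4 := T.abs (hM.kil g' h) (T.mul hf (T.mul hM.deg (one_sub_mem T (hMe g' hg')))) hL.deg (by omega)
      have h5 : f * a M * a L * (1 - g') = f * (a M * (1 - g')) * a L := by ring
      rw [h5]
      exact h4
    · have h4 := T.abs (hL.kil g' h) (T.mul hf (T.mul hL.deg (one_sub_mem T (hMe g' hg')))) hM.deg (by omega)
      have h5 : f * a M * a L * (1 - g') = f * (a L * (1 - g')) * a M := by ring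
      rw [h5]
      exact h4
  have h6 : f * a (M ∪ L) - f * a M * a L =
      f * a (M ∪ L) * 1 * (1 - a M) + f * a (M ∪ L) * a M * (1 - a L) - f * a M * a L * (1 - a (M ∪ L)) := by ring
  rw [h6]
  exact T.K.sub_mem (T.K.add_mem h1 h2) h3

omit [DecidableEq R] in
/-- products with the same span -/
theorem gS {M M' : Finset R} (hf : f ∈ T.P D) (hM : GApp T W f a M) (hM' : GApp T W f a M')
    (hMe : ∀ g' ∈ M, g' ∈ T.P e) (hMe' : ∀ g' ∈ M', g' ∈ T.P e)
    (hs : Submodule.span (ZMod p) {u | ∃ g ∈ M, u = 1 - g} = Submodule.span (ZMod p) {u | ∃ g ∈ M', u = 1 - g})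
    (hd : D + W + e + W ≤ T.d) : f * a M - f * a M' ∈ T.K := by
  have key : ∀ M : Finset R, GApp T W f a M → ∀ u ∈ Submodule.span (ZMod p) {u | ∃ g ∈ M, u = 1 - g},
      f * a M * 1 * u ∈ T.K := by
    intro M hM u hu
    induction hu using Submodule.span_induction with
    | mem u hu =>
      obtain ⟨g, hg, rfl⟩ := hu
      rw [mul_one, mul_assoc]
      exact hM.kil g hg
    | zero => rw [mul_zero]; exact T.K.zero_mem
    | add u v _ _ h1 h2 => rw [mul_add]; exact T.K.add_mem h1 h2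
    | smul c u _ h1 => rw [mul_smul_comm]; exact T.K.smul_mem c h1
  have h1 : f * a M * 1 * (1 - a M') ∈ T.K := by
    refine gA T hf hM.deg hM' hMe' T.one (fun g' hg' => ?_) (by omega)
    refine key M hM _ ?_
    rw [hs]
    exact Submodule.subset_span ⟨g', hg', rfl⟩
  have h2 : f * a M' * 1 * (1 - a M) ∈ T.K := by
    refine gA T hf hM'.deg hM hMe T.one (fun g' hg' => ?_) (by omega)
    refine key M' hM' _ ?_
    rw [← hs]
    exact Submodule.subset_span ⟨g', hg', rfl⟩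
  have h3 : f * a M - f * a M' = f * a M * 1 * (1 - a M') - f * a M' * 1 * (1 - a M) := by ring
  rw [h3]
  exact T.K.sub_mem h1 h2

/-- the indicator of a truth pattern -/
noncomputable def pat (B τ : Finset R) : R := (∏ g ∈ τ, g) * ∏ g ∈ B \ τ, (1 - g)

theorem pat_sum (B : Finset R) : ∑ τ ∈ B.powerset, pat B τ = 1 := by
  have h := Finset.prod_add (fun g : R => g) (fun g : R => 1 - g) B
  have h2 : ∏ g ∈ B, (g + (1 - g)) = 1 := Finset.prod_eq_one fun g _ => by ring
  rw [h2] at h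
  exact h.symm

theorem pat_deg {B τ : Finset R} (hτ : τ ⊆ B) (hB : ∀ g ∈ B, g ∈ T.P e) (hc : B.card ≤ s) : pat B τ ∈ T.P (e * s) := by
  have h1 := prod_mem T (δ := e) (fun g : R => 1 - g) τ fun g hg => one_sub_mem T (hB g (hτ hg))
  have h2 := prod_mem T (δ := e) (fun g : R => g) (B \ τ) fun g hg => hB g (Finset.mem_sdiff.1 hg).1
  have h3 := T.mul h1 h2
  have h4 : (∏ g ∈ τ, (1 - (1 - g))) = ∏ g ∈ τ, g := Finset.prod_congr rfl fun g _ => by ring
  rw [h4] at h3
  refine T.mono ?_ h3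
  rw [← Nat.mul_add]
  refine Nat.mul_le_mul_left e ?_
  have := Finset.card_sdiff_add_card_eq_card hτ
  omega

theorem pat_one {B τ : Finset R} {g : R} (hg : g ∈ τ) (hi : g * g = g) : pat B τ * g = pat B τ := by
  unfold pat
  rw [← Finset.mul_prod_erase τ _ hg]
  calc g * (∏ x ∈ τ.erase g, x) * (∏ g ∈ B \ τ, (1 - g)) * g
      = (g * g) * (∏ x ∈ τ.erase g, x) * (∏ g ∈ B \ τ, (1 - g)) := by ring
    _ = _ := by rw [hi]

theorem pat_zero {B τ : Finset R} {g : R} (hg : g ∈ B \ τ) (hi : g * g = g) : pat B τ * g = 0 := by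
  unfold pat
  rw [← Finset.mul_prod_erase (B \ τ) _ hg]
  calc (∏ x ∈ τ, x) * ((1 - g) * ∏ x ∈ (B \ τ).erase g, (1 - x)) * g
      = (g - g * g) * ((∏ x ∈ τ, x) * ∏ x ∈ (B \ τ).erase g, (1 - x)) := by ring
    _ = 0 := by rw [hi, sub_self, zero_mul]

theorem pat_prod {B τ A : Finset R} (hA : A ⊆ B) (hi : ∀ g ∈ B, g * g = g) :
    pat B τ * ∏ g ∈ A, g = if A ⊆ τ then pat B τ else 0 := by
  by_cases h : A ⊆ τ
  · rw [if_pos h]
    induction A using Finset.induction_on with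
    | empty => rw [Finset.prod_empty, mul_one]
    | insert g A hg ih =>
      rw [Finset.prod_insert hg, ← mul_assoc, pat_one (h (Finset.mem_insert_self g A)) (hi g (hA (Finset.mem_insert_self g A)))]
      exact ih (fun x hx => hA (Finset.mem_insert_of_mem hx)) (fun x hx => h (Finset.mem_insert_of_mem hx))
  · rw [if_neg h]
    obtain ⟨g, hg, hgτ⟩ := Finset.not_subset.1 h
    rw [← Finset.mul_prod_erase A _ hg, ← mul_assoc, pat_zero (Finset.mem_sdiff.2 ⟨hA hg, hgτ⟩) (hi g (hA hg)), zero_mul]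

/-- local identities are sound modulo `K` -/
theorem gC {S : Finset (Finset R)} {B L : Finset R} {c : Finset R → R} (hf : f ∈ T.P D) (hc : ∀ A, c A ∈ T.P t)
    (hSB : ∀ A ∈ S, A ⊆ B) (hB : B.card ≤ s) (hBe : ∀ g ∈ B, g ∈ T.P e) (hBi : ∀ g ∈ B, g * g = g)
    (hLe : ∀ A ∈ S, ∀ g ∈ A ∪ L, g ∈ T.P e) (hM : ∀ A ∈ S, GApp T W f a (A ∪ L))
    (h0 : ∑ A ∈ S, c A * ∏ g ∈ A, g = 0) (hd : D + 2 * W + e + e * s + t ≤ T.d) :
    f * ∑ A ∈ S, c A * a (A ∪ L) ∈ T.K := by
  -- the cases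
  have k1 : ∀ τ ∈ B.powerset, ∀ A ∈ S, ¬ A ⊆ τ → f * a (A ∪ L) * pat B τ ∈ T.K := by
    intro τ hτ A hA hn
    obtain ⟨g, hg, hgτ⟩ := Finset.not_subset.1 hn
    have hgB := hSB A hA hg
    have h1 := T.abs ((hM A hA).kil g (Finset.mem_union_left _ hg))
      (T.mul hf (T.mul (hM A hA).deg (one_sub_mem T (hBe g hgB)))) (pat_deg T (Finset.mem_powerset.1 hτ) hBe hB) (by omega)
    have h2 : f * (a (A ∪ L) * (1 - g)) * pat B τ = f * a (A ∪ L) * pat B τ - f * a (A ∪ L) * (pat B τ * g) := by ring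
    rw [h2, pat_zero (Finset.mem_sdiff.2 ⟨hgB, hgτ⟩) (hBi g hgB), mul_zero, sub_zero] at h1
    exact h1
  have k2 : ∀ τ ∈ B.powerset, ∀ A ∈ S, ∀ A' ∈ S, A' ⊆ τ → f * a (A ∪ L) * pat B τ * (1 - a (A' ∪ L)) ∈ T.K := by
    intro τ hτ A hA A' hA' hs'
    have hpd := pat_deg T (Finset.mem_powerset.1 hτ) hBe hB
    refine gA T hf (hM A hA).deg (hM A' hA') (fun g hg => hLe A' hA' g hg) hpd (fun g hg => ?_) (by omega)
    rcases Finset.mem_union.1 hg with h | h
    · have h1 : f * a (A ∪ L) * pat B τ * (1 - g) = f * a (A ∪ L) * (pat B τ - pat B τ * g) := by ring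
      rw [h1, pat_one (hs' h) (hBi g (hSB A' hA' h)), sub_self, mul_zero]
      exact T.K.zero_mem
    · have h1 := T.abs ((hM A hA).kil g (Finset.mem_union_right _ h))
        (T.mul hf (T.mul (hM A hA).deg (one_sub_mem T (hLe A hA g (Finset.mem_union_right _ h))))) hpd (by omega)
      have h2 : f * a (A ∪ L) * pat B τ * (1 - g) = f * (a (A ∪ L) * (1 - g)) * pat B τ := by ring
      rw [h2]
      exact h1
  -- one pattern
  have k3 : ∀ τ ∈ B.powerset, ∑ A ∈ S, c A * (f * a (A ∪ L) * pat B τ) ∈ T.K := by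
    intro τ hτ
    have hpd := pat_deg T (Finset.mem_powerset.1 hτ) hBe hB
    have hdeg : ∀ A ∈ S, f * a (A ∪ L) * pat B τ ∈ T.P (D + W + e * s) := fun A hA =>
      T.mul (T.mul hf (hM A hA).deg) hpd
    by_cases hex : ∃ A0 ∈ S, A0 ⊆ τ
    · obtain ⟨A0, hA0, hA0τ⟩ := hex
      have h1 : ∀ A ∈ S, c A * (f * a (A ∪ L) * pat B τ - f * a (A0 ∪ L) * (pat B τ * ∏ g ∈ A, g)) ∈ T.K := by
        intro A hA
        have h2 : f * a (A ∪ L) * pat B τ - f * a (A0 ∪ L) * (pat B τ * ∏ g ∈ A, g) ∈ T.K := by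
          rw [pat_prod (hSB A hA) hBi]
          by_cases hAτ : A ⊆ τ
          · rw [if_pos hAτ]
            have h3 := T.K.sub_mem (k2 τ hτ A hA A0 hA0 hA0τ) (k2 τ hτ A0 hA0 A hA hAτ)
            have h4 : f * a (A ∪ L) * pat B τ * (1 - a (A0 ∪ L)) - f * a (A0 ∪ L) * pat B τ * (1 - a (A ∪ L)) =
                f * a (A ∪ L) * pat B τ - f * a (A0 ∪ L) * pat B τ := by ring
            rw [h4] at h3
            exact h3
          · rw [if_neg hAτ, mul_zero, sub_zero]
            exact k1 τ hτ A hA hAτ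
        have h5 : f * a (A ∪ L) * pat B τ - f * a (A0 ∪ L) * (pat B τ * ∏ g ∈ A, g) ∈ T.P (D + W + e * s) := by
          refine (T.P _).sub_mem (hdeg A hA) ?_
          rw [pat_prod (hSB A hA) hBi]
          by_cases hAτ : A ⊆ τ
          · rw [if_pos hAτ]; exact hdeg A0 hA0
          · rw [if_neg hAτ, mul_zero]; exact (T.P _).zero_mem
        rw [mul_comm]
        exact T.abs h2 h5 (hc A) (by omega)
      have h6 : ∑ A ∈ S, c A * (f * a (A ∪ L) * pat B τ) =
          ∑ A ∈ S, c A * (f * a (A ∪ L) * pat B τ - f * a (A0 ∪ L) * (pat B τ * ∏ g ∈ A, g)) +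
            f * a (A0 ∪ L) * pat B τ * ∑ A ∈ S, c A * ∏ g ∈ A, g := by
        rw [Finset.mul_sum, ← Finset.sum_add_distrib]
        exact Finset.sum_congr rfl fun A _ => by ring
      rw [h6, h0, mul_zero, add_zero]
      exact Submodule.sum_mem _ h1
    · refine Submodule.sum_mem _ fun A hA => ?_
      rw [mul_comm]
      exact T.abs (k1 τ hτ A hA fun h => hex ⟨A, hA, h⟩) (hdeg A hA) (hc A) (by omega)
  have k4 : f * ∑ A ∈ S, c A * a (A ∪ L) = ∑ τ ∈ B.powerset, ∑ A ∈ S, c A * (f * a (A ∪ L) * pat B τ) := by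
    rw [Finset.sum_comm]
    rw [Finset.mul_sum]
    refine Finset.sum_congr rfl fun A _ => ?_
    have h1 : ∑ τ ∈ B.powerset, c A * (f * a (A ∪ L) * pat B τ) = c A * (f * a (A ∪ L)) * ∑ τ ∈ B.powerset, pat B τ := by
      rw [Finset.mul_sum]
      exact Finset.sum_congr rfl fun τ _ => by ring
    rw [h1, pat_sum]
    ring
  rw [k4]
  exact Submodule.sum_mem _ k3

end abstr

end SizeDegree
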