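import Pool.Agent.H89.SD.Sim

/-!
helper89: the polynomial calculus with products simulates the lines form: the simulation.
-/

set_option autoImplicit false
open scoped Classical

namespace SizeDegree

open H85SD

/-- one inference -/
theorem sim_step {p n m e t f s k T S : ℕ} [Fact p.Prime] (Φ : Fin m → Clause n) (hk : ∀ j, (Φ j).card ≤ k) (he : 1 ≤ e)
    {𝓜 : Finset (Finset (Pt n → ZMod p))} {M : Finset (Pt n → ZMod p)} (hM : M ∈ 𝓜)
    {E : Finset (Pt n → ZMod p)} (hE : ∀ g ∈ E, Cond e g) (hME : M = cmp E)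
    {h : Pt n → ZMod p} (hh : Cond t h)
    (J : Finset ℕ) (Jc : Finset (Fin m)) (hJ : J.card ≤ f) (hJc : Jc.card ≤ f)
    (hj : ℕ → Pt n → ZMod p) (hhj : ∀ j ∈ J, Cond t (hj j)) (A : ℕ → Finset (Pt n → ZMod p))
    (hA : ∀ j ∈ J, (A j).card ≤ s ∧ ∀ g ∈ A j, Cond e g) (B : Finset (Pt n → ZMod p)) (hB : B.card ≤ s)
    (hBc : ∀ g ∈ B, Cond e g ∧ g ∈ Submodule.span (ZMod p) (E : Set (Pt n → ZMod p)))
    (hsem : ∀ x, (∀ j ∈ Jc, (Φ j).Holds x) → (∀ j ∈ J, hj j x = 1 ∨ ∃ g ∈ A j, g x = 1) → h x = 1 ∨ ∃ g ∈ B, g x = 1)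
    (hprem : ∀ j ∈ J, ZZ Φ T S 𝓜 (cmp (A j) ∪ M) (1 - hj j)) (hAM : ∀ j ∈ J, cmp (A j) ∪ M ∈ 𝓜)
    (hneg : ∀ j ∈ Jc, Clause.neg p (Φ j) ∪ M ∈ 𝓜)
    (hT : t + k * f + (t + e * s) * f + e * s + e + k + t ≤ T) (hS : s + k + 1 ≤ S) :
    ZZ Φ T S 𝓜 M (1 - h) := by
  have hhP : ∀ {h : Pt n → ZMod p}, Cond t h → (1 - h) ∈ PP p n t := fun hh =>
    (PP p n t).sub_mem (PP_mono (Nat.zero_le t) PP_one) hh.1
  have hcE : ∀ g ∈ (E : Set (Pt n → ZMod p)), Cond e g ∧ 1 - g ∈ M := by
    intro g hg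
    refine ⟨hE g hg, ?_⟩
    rw [hME]
    exact Finset.mem_image_of_mem _ hg
  have h0 : ZZ Φ T S 𝓜 M 0 := ZZ_span_cond hcE (by omega) (by omega) hM (Submodule.zero_mem _)
  set w : Pt n → ZMod p := 1 - h with hw
  have hwP : w ∈ PP p n t := hhP hh
  -- premises
  set u : ℕ → Pt n → ZMod p := fun j => ∏ g ∈ A j, (1 - g) with hu
  have huP : ∀ j ∈ J, u j ∈ PP p n (e * s) := by
    intro j hj
    have h1 := prod_mem (TT p Φ 0) (ι := Pt n → ZMod p) (δ := e) (fun g => g) (A j) (fun g hg => ((hA j hj).2 g hg).1)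
    exact PP_mono (Nat.mul_le_mul_left e (hA j hj).1) h1
  have hz : ∀ j ∈ J, ZZ Φ T S 𝓜 M ((1 - hj j) * u j) := by
    intro j hjJ
    have h1 := ZZ_conv (T := T) (S := S) (A := cmp (A j)) (M := M) (hprem j hjJ)
      (PP_mono (by omega) (hhP (hhj j hjJ))) (by
        rw [cmp_prod]
        exact PP_mono (by omega) (PP_mul (hhP (hhj j hjJ)) (huP j hjJ)))
      ((cmp_card _).trans (by have := (hA j hjJ).1; omega)) (hAM j hjJ) hM
    rw [cmp_prod] at h1
    exact h1
  -- clauses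
  set q : Fin m → Pt n → ZMod p := fun j => fun x => if (Φ j).Holds x then 0 else 1 with hq
  have hqP : ∀ j, q j ∈ PP p n k := fun j => clause_deg Φ 0 (Φ j) (hk j)
  have hqK : ∀ j ∈ Jc, ZZ Φ T S 𝓜 M (q j) := by
    intro j hj
    have h1 : ZZ Φ T S 𝓜 (Clause.neg p (Φ j) ∪ M) 1 := PDerives.clause j (hneg j hj) Finset.subset_union_left
    have h2 := ZZ_conv (T := T) (S := S) h1 (PP_mono (Nat.zero_le T) PP_one) (by
        rw [one_mul, neg_prod]
        exact PP_mono (by omega) (hqP j))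
      (Finset.card_image_le.trans (by have := hk j; omega)) (hneg j hj) hM
    rw [one_mul, neg_prod] at h2
    exact h2
  -- conditions of the conclusion
  have hB2 : ∀ g ∈ B, ZZ Φ T S 𝓜 M g := fun g hg => ZZ_span_cond hcE (by omega) (by omega) hM (hBc g hg).2
  have hkf : k * Jc.card ≤ k * f := Nat.mul_le_mul_left k hJc
  have htf : (t + e * s) * J.card ≤ (t + e * s) * f := Nat.mul_le_mul_left _ hJ
  have hes : e * B.card ≤ e * s := Nat.mul_le_mul_left e hB
  obtain ⟨a1, d1⟩ := ZZ_comb hwP q Jc (fun j _ => hqP j) hqK h0 (by omega)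
  obtain ⟨a2, d2⟩ := ZZ_comb hwP (fun j => (1 - hj j) * u j) J
    (fun j hjJ => PP_mul (hhP (hhj j hjJ)) (huP j hjJ)) hz h0 (by omega)
  obtain ⟨a3, d3⟩ := ZZ_comb hwP (fun g : Pt n → ZMod p => g) B (fun g hg => (hBc g hg).1.1) hB2 h0 (by omega)
  set Q1 : Pt n → ZMod p := ∏ j ∈ Jc, (1 - q j) with hQ1
  set Q2 : Pt n → ZMod p := ∏ j ∈ J, (1 - (1 - hj j) * u j) with hQ2
  set Q3 : Pt n → ZMod p := ∏ g ∈ B, (1 - g) with hQ3
  have b2 : ZZ Φ T S 𝓜 M (Q1 * (w - w * Q2)) := by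
    refine ZZ_mul a2 (PP_mono (by omega) d1) ?_
    have h1 : w - w * Q2 ∈ PP p n (t + (t + e * s) * J.card) :=
      (PP p n _).sub_mem (PP_mono (Nat.le_add_right _ _) hwP) (PP_mul hwP d2)
    exact PP_mono (by omega) (PP_mul d1 h1)
  have b3 : ZZ Φ T S 𝓜 M ((Q1 * Q2) * (w - w * Q3)) := by
    refine ZZ_mul a3 (PP_mono (by omega) (PP_mul d1 d2)) ?_
    have h1 : w - w * Q3 ∈ PP p n (t + e * B.card) :=
      (PP p n _).sub_mem (PP_mono (Nat.le_add_right _ _) hwP) (PP_mul hwP d3)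
    exact PP_mono (by omega) (PP_mul (PP_mul d1 d2) h1)
  have hzero : w * (Q1 * Q2 * Q3) = 0 := by
    funext x
    by_contra hne
    rw [Pi.zero_apply, Pi.mul_apply, Pi.mul_apply, Pi.mul_apply] at hne
    have hG0 : w x ≠ 0 := fun h => hne (by rw [h, zero_mul])
    have h1 : Q1 x ≠ 0 := fun h => hne (by rw [h]; ring)
    have h2 : Q2 x ≠ 0 := fun h => hne (by rw [h]; ring)
    have h3 : Q3 x ≠ 0 := fun h => hne (by rw [h]; ring)
    have hhx : h x ≠ 1 := by
      intro h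
      apply hG0
      rw [hw, Pi.sub_apply, Pi.one_apply, h, sub_self]
    rw [hQ1, Finset.prod_apply] at h1
    rw [hQ2, Finset.prod_apply] at h2
    rw [hQ3, Finset.prod_apply] at h3
    rw [Finset.prod_ne_zero_iff] at h1 h2 h3
    have hcl : ∀ j ∈ Jc, (Φ j).Holds x := by
      intro j hj
      by_contra hnot
      apply h1 j hj
      rw [Pi.sub_apply, Pi.one_apply, hq]
      change 1 - (if (Φ j).Holds x then (0 : ZMod p) else 1) = 0
      rw [if_neg hnot, sub_self]
    have hpr : ∀ j ∈ J, hj j x = 1 ∨ ∃ g ∈ A j, g x = 1 := by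
      intro j hjJ
      by_contra hnot
      push Not at hnot
      obtain ⟨n1, n2⟩ := hnot
      apply h2 j hjJ
      have e1 : hj j x = 0 := ((hhj j hjJ).2 x).resolve_right n1
      have e2 : u j x = 1 := by
        rw [hu]
        change (∏ g ∈ A j, (1 - g)) x = 1
        rw [Finset.prod_apply]
        refine Finset.prod_eq_one fun g hg => ?_
        rw [Pi.sub_apply, Pi.one_apply, (((hA j hjJ).2 g hg).2 x).resolve_right (n2 g hg), sub_zero]
      rw [Pi.sub_apply, Pi.mul_apply, Pi.sub_apply, Pi.one_apply, e1, e2, sub_zero, mul_one, sub_self]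
    rcases hsem x hcl hpr with h | ⟨g, hg, hgx⟩
    · exact hhx h
    · apply h3 g hg
      rw [Pi.sub_apply, Pi.one_apply, hgx, sub_self]
  have hfin : w = (w - w * Q1) + Q1 * (w - w * Q2) + (Q1 * Q2) * (w - w * Q3) + w * (Q1 * Q2 * Q3) := by ring
  rw [hfin, hzero, add_zero]
  exact ZZ_add (ZZ_add a1 b2) b3

/-- the polynomial calculus with products simulates the lines form -/
theorem sim {p n m e t f s k N : ℕ} [Fact p.Prime] (Φ : Fin m → Clause n) (hk : ∀ j, (Φ j).card ≤ k) (he : 1 ≤ e)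
    (href : Refutes p e t f s Φ N) :
    PRefutes p e (t + k * f + (t + e * s) * f + e * s + e + k + t) (s + k + 1) Φ ((3 * f + 2) * N) := by
  obtain ⟨l, hN1, hlast, hl⟩ := href
  set T := t + k * f + (t + e * s) * f + e * s + e + k + t with hT
  set S := s + k + 1 with hS
  have hfin : ∀ i, ∃ E : Finset (Pt n → ZMod p), (E : Set (Pt n → ZMod p)) = (l i).E := fun i =>
    ⟨(Set.toFinite (l i).E).toFinset, (Set.toFinite (l i).E).coe_toFinset⟩
  choose E hE using hfin
  have hdata : ∀ i, ∃ (J : Finset ℕ) (Jc : Finset (Fin m)) (A : ℕ → Finset (Pt n → ZMod p)) (B : Finset (Pt n → ZMod p)),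
      J.card ≤ f ∧ Jc.card ≤ f ∧ (i < N → (∀ j ∈ J, j < i) ∧
      (∀ j ∈ J, (A j).card ≤ s ∧ (∀ g ∈ A j, Cond e g) ∧
        (l j).E ⊆ Submodule.span (ZMod p) ((l i).E ∪ (A j : Set (Pt n → ZMod p)))) ∧
      B.card ≤ s ∧ (∀ g ∈ B, Cond e g ∧ g ∈ Submodule.span (ZMod p) (l i).E) ∧
      ∀ x, (∀ j ∈ Jc, (Φ j).Holds x) → (∀ j ∈ J, (l j).h x = 1 ∨ ∃ g ∈ A j, g x = 1) → (l i).h x = 1 ∨ ∃ g ∈ B, g x = 1) ∧
      (¬ i < N → J = ∅ ∧ Jc = ∅) := by
    intro i
    by_cases hi : i < N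
    · obtain ⟨J, Jc, h1, h2, h3, A, B, h4, h5, h6, h7⟩ := hl i hi
      exact ⟨J, Jc, A, B, h1, h2, fun _ => ⟨h3, h4, h5, h6, h7⟩, fun h => absurd hi h⟩
    · exact ⟨∅, ∅, fun _ => ∅, ∅, by simp, by simp, fun h => absurd h hi, fun _ => ⟨rfl, rfl⟩⟩
  choose J Jc A B hJ hJc hD _ using hdata
  let M : ℕ → Finset (Pt n → ZMod p) := fun i => cmp (E i)
  set 𝓜 : Finset (Finset (Pt n → ZMod p)) := insert ∅ ((Finset.range N).biUnion fun i =>
    insert (M i) ((((J i).image fun j => cmp (A i j) ∪ M i) ∪ ((J i).image fun j => M j ∪ (cmp (A i j) ∪ M i))) ∪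
      ((Jc i).image fun j => Clause.neg p (Φ j) ∪ M i))) with h𝓜
  have mem_bi : ∀ i < N, ∀ X, X ∈ insert (M i) ((((J i).image fun j => cmp (A i j) ∪ M i) ∪
      ((J i).image fun j => M j ∪ (cmp (A i j) ∪ M i))) ∪ ((Jc i).image fun j => Clause.neg p (Φ j) ∪ M i)) → X ∈ 𝓜 := by
    intro i hi X hX
    rw [h𝓜]
    exact Finset.mem_insert_of_mem (Finset.mem_biUnion.2 ⟨i, Finset.mem_range.2 hi, hX⟩)
  have hM : ∀ i < N, M i ∈ 𝓜 := fun i hi => mem_bi i hi _ (Finset.mem_insert_self _ _)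
  have hAM : ∀ i < N, ∀ j ∈ J i, cmp (A i j) ∪ M i ∈ 𝓜 := fun i hi j hj =>
    mem_bi i hi _ (Finset.mem_insert_of_mem (Finset.mem_union_left _ (Finset.mem_union_left _
      (Finset.mem_image_of_mem (fun j => cmp (A i j) ∪ M i) hj))))
  have hMAM : ∀ i < N, ∀ j ∈ J i, M j ∪ (cmp (A i j) ∪ M i) ∈ 𝓜 := fun i hi j hj =>
    mem_bi i hi _ (Finset.mem_insert_of_mem (Finset.mem_union_left _ (Finset.mem_union_right _
      (Finset.mem_image_of_mem (fun j => M j ∪ (cmp (A i j) ∪ M i)) hj))))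
  have hneg : ∀ i < N, ∀ j ∈ Jc i, Clause.neg p (Φ j) ∪ M i ∈ 𝓜 := fun i hi j hj =>
    mem_bi i hi _ (Finset.mem_insert_of_mem (Finset.mem_union_right _
      (Finset.mem_image_of_mem (fun j => Clause.neg p (Φ j) ∪ M i) hj)))
  have hempty : ∅ ∈ 𝓜 := by rw [h𝓜]; exact Finset.mem_insert_self _ _
  refine ⟨𝓜, ?_, ?_, ?_⟩
  · -- the number of products
    have h1 : ∀ i ∈ Finset.range N, (insert (M i) ((((J i).image fun j => cmp (A i j) ∪ M i) ∪
      ((J i).image fun j => M j ∪ (cmp (A i j) ∪ M i))) ∪ ((Jc i).image fun j => Clause.neg p (Φ j) ∪ M i))).card ≤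
        3 * f + 1 := by
      intro i _
      refine (Finset.card_insert_le _ _).trans ?_
      have h2 := Finset.card_union_le (((J i).image fun j => cmp (A i j) ∪ M i) ∪
        ((J i).image fun j => M j ∪ (cmp (A i j) ∪ M i))) ((Jc i).image fun j => Clause.neg p (Φ j) ∪ M i)
      have h3 := Finset.card_union_le ((J i).image fun j => cmp (A i j) ∪ M i)
        ((J i).image fun j => M j ∪ (cmp (A i j) ∪ M i))
      have h4 : ((J i).image fun j => cmp (A i j) ∪ M i).card ≤ (J i).card := Finset.card_image_le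
      have h5 : ((J i).image fun j => M j ∪ (cmp (A i j) ∪ M i)).card ≤ (J i).card := Finset.card_image_le
      have h6 : ((Jc i).image fun j => Clause.neg p (Φ j) ∪ M i).card ≤ (Jc i).card := Finset.card_image_le
      have h7 := hJ i
      have h8 := hJc i
      omega
    have h2 := Finset.card_biUnion_le_card_mul (Finset.range N) _ (3 * f + 1) h1
    rw [Finset.card_range] at h2
    rw [h𝓜]
    refine (Finset.card_insert_le _ _).trans ?_
    have h3 : (3 * f + 2) * N = N * (3 * f + 1) + N := by ring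
    omega
  · intro X hX g hg
    have hEc : ∀ i, ∀ g ∈ M i, Cond e g := by
      intro i
      refine cmp_cond fun g hg => (l i).hE g ?_
      rw [← hE i]
      exact hg
    rw [h𝓜, Finset.mem_insert, Finset.mem_biUnion] at hX
    rcases hX with rfl | ⟨i, hi, hX⟩
    · exact absurd hg (Finset.notMem_empty _)
    · have hi' := Finset.mem_range.1 hi
      obtain ⟨_, hA, _, _, _⟩ := hD i hi'
      rw [Finset.mem_insert, Finset.mem_union, Finset.mem_union, Finset.mem_image, Finset.mem_image, Finset.mem_image] at hX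
      rcases hX with rfl | (⟨j, hj, rfl⟩ | ⟨j, hj, rfl⟩) | ⟨j, hj, rfl⟩
      · exact hEc i g hg
      · rcases Finset.mem_union.1 hg with h | h
        · exact cmp_cond (hA j hj).2.1 g h
        · exact hEc i g h
      · rcases Finset.mem_union.1 hg with h | h
        · exact hEc j g h
        · rcases Finset.mem_union.1 h with h | h
          · exact cmp_cond (hA j hj).2.1 g h
          · exact hEc i g h
      · rcases Finset.mem_union.1 hg with h | h
        · exact neg_cond he _ g h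
        · exact hEc i g h
  · have claim : ∀ i, i < N → ZZ Φ T S 𝓜 (M i) (1 - (l i).h) := by
      intro i
      induction i using Nat.strong_induction_on with
      | _ i ih =>
        intro hi
        obtain ⟨hJi, hA, hB, hBs, hsem⟩ := hD i hi
        refine sim_step (T := T) (S := S) Φ hk he (hM i hi) (E := E i) (fun g hg => (l i).hE g (by rw [← hE i]; exact hg)) rfl
          (l i).hh (J i) (Jc i) (hJ i) (hJc i) (fun j => (l j).h) (fun j _ => (l j).hh) (A i)
          (fun j hj => ⟨(hA j hj).1, (hA j hj).2.1⟩) (B i) hB (fun g hg => ⟨(hBs g hg).1, by rw [hE i]; exact (hBs g hg).2⟩)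
          hsem ?_ (hAM i hi) (hneg i hi) le_rfl le_rfl
        intro j hj
        have hjN : j < N := lt_trans (hJi j hj) hi
        have h1 := ih j (hJi j hj) hjN
        have h2 := ZZ_prod h1 (hAM i hi j hj) (hMAM i hi j hj)
        have hhP : (1 - (l j).h) ∈ PP p n t := (PP p n t).sub_mem (PP_mono (Nat.zero_le t) PP_one) (l j).hh.1
        refine ZZ_span h2 (PP_mono (by omega) hhP) (hMAM i hi j hj) (hAM i hi j hj) ?_
        rw [set_union (M j) (cmp (A i j) ∪ M i), set_union (cmp (A i j)) (M i)]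
        rw [cmp_set (A i j)]
        have e1 : ∀ i, {u | ∃ g ∈ M i, u = 1 - g} = (l i).E := fun i => (cmp_set (E i)).trans (hE i)
        rw [e1 i, e1 j]
        refine le_antisymm (Submodule.span_mono Set.subset_union_right) ?_
        rw [Submodule.span_union, sup_le_iff]
        refine ⟨Submodule.span_le.2 ?_, le_rfl⟩
        rw [Set.union_comm]
        exact (hA j hj).2.2
    have hlt : N - 1 < N := by omega
    have hc := claim (N - 1) hlt
    have hh : (l (N - 1)).h = 0 := by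
      funext x
      exact ((l (N - 1)).hh.2 x).resolve_right fun h => hlast x (Or.inr h)
    rw [hh, sub_zero] at hc
    have hE1 : ∀ g ∈ M (N - 1), g = 1 := by
      intro g hg
      obtain ⟨u, hu, rfl⟩ := Finset.mem_image.1 hg
      have hu' : u ∈ (l (N - 1)).E := by rw [← hE]; exact hu
      have : u = 0 := by
        funext x
        exact (((l (N - 1)).hE u hu').2 x).resolve_right fun h => hlast x (Or.inl ⟨u, hu', h⟩)
      rw [this, sub_zero]
    have hprod : ∏ g ∈ M (N - 1), g = 1 := Finset.prod_eq_one hE1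
    have hcard : (M (N - 1)).card ≤ 1 := by
      rw [Finset.card_le_one]
      intro a ha b hb
      rw [hE1 a ha, hE1 b hb]
    have h1 := ZZ_conv (T := T) (S := S) (A := M (N - 1)) (M := ∅) (c := 1) (by rw [Finset.union_empty]; exact hc)
      (PP_mono (Nat.zero_le T) PP_one) (by rw [hprod, one_mul]; exact PP_mono (Nat.zero_le T) PP_one) (by omega)
      (by rw [Finset.union_empty]; exact hM _ hlt) hempty
    rw [hprod, one_mul] at h1
    exact h1

end SizeDegree
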