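import Pool.Agent.H85.SD.Main
import Pool.Agent.H89.SD.Sim2

/-!
helper89: the products form in natural numbers, the lines form and resolution over parities as corollaries, random CNFs.
-/

set_option autoImplicit false
open scoped Classical

namespace SizeDegree

/-- a refutation has at least one product -/
theorem prod_one_le {p e t s n m N : ℕ} [Fact p.Prime] {Φ : Fin m → Clause n} (h : PRefutes p e t s Φ N) : 1 ≤ N := by
  obtain ⟨𝓜, hN, _, hder⟩ := h
  refine le_trans ?_ hN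
  rw [Nat.one_le_iff_ne_zero, Ne, Finset.card_eq_zero]
  rintro rfl
  have key : ∀ P : PLine p n, PDerives Φ t s ∅ P → P = 0 := by
    intro P hP
    induction hP with
    | clause j hM _ => exact absurd hM (Finset.notMem_empty _)
    | ident L Q _ _ _ hM =>
      have hQ : Q = 0 := by
        rw [← Finsupp.support_eq_empty, Finset.eq_empty_iff_forall_notMem]
        intro M hMs
        exact Finset.notMem_empty _ (hM M hMs)
      rw [hQ, PLine.times, Finsupp.mapDomain_zero]
    | span hM _ _ => exact absurd hM (Finset.notMem_empty _)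
    | add _ _ h1 h2 => rw [h1, h2, add_zero]
    | coef h _ _ _ h1 =>
      rw [h1, PLine.coef, Finsupp.mapRange_zero]
    | times g _ _ h1 => rw [h1, PLine.times, Finsupp.mapDomain_zero]
    | prod _ hL _ _ => exact absurd hL (Finset.notMem_empty _)
  have h1 := key _ hder
  rw [Finsupp.single_eq_zero] at h1
  have := congrFun h1 (fun _ => true)
  exact one_ne_zero this

/-- the size-degree theorem, products form, natural numbers -/
theorem prod_nat (p : ℕ) [Fact p.Prime] (e : ℕ) (he : 1 ≤ e) : ∃ C : ℕ, 0 < C ∧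
    ∀ (n d k s t m N : ℕ) (Φ : Fin m → Clause n), d ≤ n → C * (k + s + t + 1) ≤ d → (∀ j, (Φ j).card ≤ k) →
      ¬ Derives (p := p) Φ d 1 → PRefutes p e t s Φ N → 2 ^ (d ^ (e + 1) / (C * n ^ e)) ≤ N := by
  obtain ⟨C, hC, h⟩ := prod_bound p e he
  refine ⟨3 * C, by omega, ?_⟩
  intro n d k s t m N Φ hdn hCd hk h1 href
  refine clean hC ?_ (prod_one_le href)
  have := h n d k s t m N Φ hdn (le_trans (Nat.mul_le_mul_right _ (by omega)) hCd) hk h1 href
  push_cast
  exact this

/-- absorbing a constant factor -/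
theorem absorb {C c a b N : ℕ} (hN : 1 ≤ N) (h : 2 ^ (a / (C * b)) ≤ c * N) :
    2 ^ (a / ((c + 1) * C * b)) ≤ N := by
  obtain ⟨r, hr⟩ : ∃ r, r = a / ((c + 1) * C * b) := ⟨_, rfl⟩
  rw [← hr]
  rcases Nat.eq_zero_or_pos r with h0 | h0
  · rw [h0, pow_zero]
    exact hN
  have hCb : 0 < C * b := by
    rcases Nat.eq_zero_or_pos (C * b) with hb | hb
    · rw [mul_assoc, hb, mul_zero, Nat.div_zero] at hr
      omega
    · exact hb
  have h1 : r * ((c + 1) * C * b) ≤ a := by
    rw [hr]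
    exact Nat.div_mul_le_self _ _
  have h2 : r + c ≤ a / (C * b) := by
    rw [Nat.le_div_iff_mul_le hCb]
    have h3 : r + c ≤ r * (c + 1) := by
      have : c ≤ r * c := Nat.le_mul_of_pos_left _ h0
      have e1 : r * (c + 1) = r * c + r := by ring
      omega
    calc (r + c) * (C * b) ≤ r * (c + 1) * (C * b) := Nat.mul_le_mul_right _ h3
      _ = r * ((c + 1) * C * b) := by ring
      _ ≤ a := h1
  have h4 : 2 ^ (r + c) ≤ c * N := (Nat.pow_le_pow_right (by norm_num) h2).trans h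
  rw [pow_add] at h4
  have h5 : c < 2 ^ c := Nat.lt_two_pow_self
  rcases Nat.eq_zero_or_pos c with hc | hc
  · rw [hc, zero_mul] at h4
    have : 0 < 2 ^ r * 2 ^ 0 := by positivity
    omega
  · refine Nat.le_of_mul_le_mul_left (?_ : c * 2 ^ r ≤ c * N) hc
    calc c * 2 ^ r ≤ 2 ^ c * 2 ^ r := Nat.mul_le_mul_right _ h5.le
      _ = 2 ^ r * 2 ^ c := mul_comm _ _
      _ ≤ c * N := h4

/-- the lines form is a corollary of the products form -/
theorem lines_of_prod (p : ℕ) [Fact p.Prime] (e f : ℕ) (he : 1 ≤ e) : ∃ C : ℕ, 0 < C ∧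
    ∀ (n d k s t m N : ℕ) (Φ : Fin m → Clause n), d ≤ n → C * (k + s + t + 1) ≤ d → (∀ j, (Φ j).card ≤ k) →
      ¬ Derives (p := p) Φ d 1 → Refutes p e t f s Φ N → 2 ^ (d ^ (e + 1) / (C * n ^ e)) ≤ N := by
  obtain ⟨C, hC, h⟩ := prod_nat p e he
  refine ⟨(3 * f + 2 + 1) * ((f + 3) * (e + 2)) * C, by positivity, ?_⟩
  intro n d k s t m N Φ hdn hCd hk h1 href
  have hN1 : 1 ≤ N := href.choose_spec.1
  have hs := sim Φ hk he href
  have hsum : k + (s + k + 1) + (t + k * f + (t + e * s) * f + e * s + e + k + t) + 1 ≤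
      (f + 3) * (e + 2) * (k + s + t + 1) := by
    have e1 : k + (s + k + 1) + (t + k * f + (t + e * s) * f + e * s + e + k + t) + 1 =
        (f + 3) * k + (f + 2) * t + (1 + (f + 1) * e) * s + (e + 2) := by ring
    rw [e1]
    have a1 : (f + 3) * k ≤ (f + 3) * (e + 2) * k := by
      refine Nat.mul_le_mul_right _ (Nat.le_mul_of_pos_right _ (by omega))
    have a2 : (f + 2) * t ≤ (f + 3) * (e + 2) * t := by
      refine Nat.mul_le_mul_right _ (le_trans (by omega : f + 2 ≤ f + 3) (Nat.le_mul_of_pos_right _ (by omega)))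
    have a3 : (1 + (f + 1) * e) * s ≤ (f + 3) * (e + 2) * s := by
      refine Nat.mul_le_mul_right _ ?_
      nlinarith
    have a4 : e + 2 ≤ (f + 3) * (e + 2) * 1 := by
      rw [mul_one]
      exact Nat.le_mul_of_pos_left _ (by omega)
    calc (f + 3) * k + (f + 2) * t + (1 + (f + 1) * e) * s + (e + 2)
        ≤ (f + 3) * (e + 2) * k + (f + 3) * (e + 2) * t + (f + 3) * (e + 2) * s + (f + 3) * (e + 2) * 1 := by omega
      _ = (f + 3) * (e + 2) * (k + s + t + 1) := by ring
  have h2 := h n d k (s + k + 1) (t + k * f + (t + e * s) * f + e * s + e + k + t) m ((3 * f + 2) * N) Φ hdn (by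
    refine le_trans (Nat.mul_le_mul_left _ hsum) (le_trans ?_ hCd)
    have e1 : C * ((f + 3) * (e + 2) * (k + s + t + 1)) = 1 * ((f + 3) * (e + 2)) * C * (k + s + t + 1) := by ring
    rw [e1]
    exact Nat.mul_le_mul_right _ (Nat.mul_le_mul_right _ (Nat.mul_le_mul_right _ (by omega)))) hk h1 hs
  have h3 : 2 ^ (d ^ (e + 1) / ((f + 3) * (e + 2) * C * n ^ e)) ≤ (3 * f + 2) * N := by
    refine le_trans (Nat.pow_le_pow_right (by norm_num) ?_) h2
    rcases Nat.eq_zero_or_pos (C * n ^ e) with h0 | h0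
    · have e1 : (f + 3) * (e + 2) * C * n ^ e = 0 := by rw [mul_assoc, h0, mul_zero]
      rw [e1, Nat.div_zero]
      exact Nat.zero_le _
    · refine Nat.div_le_div_left ?_ h0
      rw [mul_assoc]
      exact Nat.le_mul_of_pos_left _ (by positivity)
  have h4 := absorb (C := (f + 3) * (e + 2) * C) (c := 3 * f + 2) hN1 h3
  have e1 : (3 * f + 2 + 1) * ((f + 3) * (e + 2) * C) * n ^ e = (3 * f + 2 + 1) * ((f + 3) * (e + 2)) * C * n ^ e := by
    ring
  rw [e1] at h4
  exact h4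

/-- random `k`-CNFs, products form -/
theorem rand_prod (p : ℕ) (hp : p.Prime) (e k Δ : ℕ) (he : 1 ≤ e) (hk : 3 ≤ k) : ∃ C : ℕ, 0 < C ∧
    ∀ n m : ℕ, m ≤ Δ * n → n * Nat.card {Φ : Fin m → KClause n k // ∃ s t N, C * (s + t) ≤ n ∧ N < 2 ^ (n / C) ∧
      PRefutes p e t s (fun j => (Φ j).toClause) N} ≤ C * Nat.card (Fin m → KClause n k) := by
  haveI : Fact p.Prime := ⟨hp⟩
  obtain ⟨C1, hC1, h1⟩ := prod_nat p e he
  obtain ⟨C2, hC2, h2⟩ := rand_main k Δ hk
  obtain ⟨C, hC⟩ : ∃ C, C = 2 * C1 * (2 * C2) ^ (e + 1) * (k + 1) := ⟨_, rfl⟩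
  have hC0 : C2 ≤ C := by
    rw [hC]
    calc C2 = 1 * C2 * 1 := by ring
      _ ≤ (2 * C1) * (2 * C2) ^ (e + 1) * (k + 1) := by
        refine Nat.mul_le_mul (Nat.mul_le_mul (by omega) ?_) (by omega)
        calc C2 ≤ (2 * C2) ^ 1 := by rw [pow_one]; omega
          _ ≤ (2 * C2) ^ (e + 1) := Nat.pow_le_pow_right (by omega) (by omega)
  refine ⟨C, by omega, ?_⟩
  intro n m hm
  refine h2 C hC0 n m hm _ ?_
  rintro Φ hn hder ⟨s, t, N, hst, hN, href⟩
  obtain ⟨a1, a2, a3, a4⟩ := rand_num (s := s) (t := t) hC1 hC2 hC hn hst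
  have h3 := h1 n (n / C2) k s t m N _ a1 a3 (fun j => toClause_card (Φ j)) (hder p hp _ a2) href
  exact absurd ((Nat.pow_le_pow_right (by norm_num) a4).trans h3) (not_le.mpr hN)

end SizeDegree
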