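import Mathlib

/-!
helper89: the numerics of `Pool/Agent/H85/SD/Num.lean` (helper28) with a larger budget.
-/

set_option autoImplicit false
open scoped Classical

namespace SizeDegree

theorem num4 (p e f : ℕ) (hp : 2 ≤ p) (he : 1 ≤ e) : ∃ C : ℕ, 0 < C ∧ ∀ n d k s t : ℕ, d ≤ n → C * (k + s + t + 1) ≤ d →
    ∃ (D0 w : ℕ) (q : ℝ), 0 < q ∧ 2 * q ≤ 1 ∧
      D0 + e + 4 * (e * (p - 1) * w + e) + e * (p + 1) + (f + 3) * (t + (s + 1) * e + k + 1) ≤ d ∧
      ∑ D ∈ Finset.Ico (D0 + 1) (D0 + e + 1), (1 / 2 : ℝ) ^ D * Real.exp (2 * q * n) +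
        (1 - (1 - 1 / (p : ℝ)) * q ^ e) ^ w ≤ 4 * (2 : ℝ) ^ (-((d : ℝ) ^ (e + 1) / (C * (n : ℝ) ^ e))) := by
  obtain ⟨C, hC⟩ : ∃ C, C = 64 * 32 ^ e * e * (p + 3) * (f + 3) := ⟨_, rfl⟩
  have h32 : 1 ≤ 32 ^ e := Nat.one_le_pow _ _ (by norm_num)
  have hC1 : 64 * 32 ^ e * e * (p + 3) ≤ C := by
    rw [hC]; exact Nat.le_mul_of_pos_right _ (by omega)
  have hC2 : 64 * e * (f + 3) ≤ C := by
    rw [hC]
    have : 64 * e * (f + 3) * 1 ≤ 64 * e * (f + 3) * (32 ^ e * (p + 3)) :=
      Nat.mul_le_mul_left _ (Nat.mul_pos h32 (by omega))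
    calc 64 * e * (f + 3) = 64 * e * (f + 3) * 1 := by ring
      _ ≤ 64 * e * (f + 3) * (32 ^ e * (p + 3)) := this
      _ = _ := by ring
  have hC3 : 64 * e * (p + 3) ≤ C := by
    refine le_trans ?_ hC1
    have : 64 * e * (p + 3) * 1 ≤ 64 * e * (p + 3) * (32 ^ e) := Nat.mul_le_mul_left _ h32
    calc 64 * e * (p + 3) = 64 * e * (p + 3) * 1 := by ring
      _ ≤ 64 * e * (p + 3) * (32 ^ e) := this
      _ = _ := by ring
  have hC4 : 64 * e ≤ C := le_trans (Nat.le_mul_of_pos_right _ (by omega)) hC3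
  refine ⟨C, by omega, ?_⟩
  intro n d k s t hdn hd
  have hCd : C ≤ d := le_trans (Nat.le_mul_of_pos_right _ (by omega)) hd
  have hd0 : 0 < d := by omega
  have hn0 : 0 < n := by omega
  have hnr : (0 : ℝ) < n := by exact_mod_cast hn0
  have hdr : (0 : ℝ) < d := by exact_mod_cast hd0
  have hdnr : (d : ℝ) ≤ n := by exact_mod_cast hdn
  have hCr : (0 : ℝ) < C := by
    have : 0 < C := by omega
    exact_mod_cast this
  have hp1 : 1 ≤ p - 1 := by omega
  set m : ℕ := 16 * e * (p - 1) with hm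
  have hm0 : 0 < m := by
    rw [hm]
    exact Nat.mul_pos (by omega) hp1
  have hmd : m ≤ d := by
    have : m ≤ 64 * e * (p + 3) := by
      rw [hm]
      exact Nat.mul_le_mul (by omega) (by omega)
    omega
  refine ⟨d / 4 - e, d / m, (d : ℝ) / (32 * n), by positivity, ?_, ?_, ?_⟩
  · rw [← mul_div_assoc, div_le_one (by positivity)]
    linarith
  · -- the budget
    have b1 : d / 4 - e + e ≤ d / 4 := by omega
    have b2 : 16 * (e * (p - 1) * (d / m)) ≤ d := by
      have := Nat.div_mul_le_self d m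
      calc 16 * (e * (p - 1) * (d / m)) = d / m * m := by rw [hm]; ring
        _ ≤ d := this
    have b3 : 32 * (e * (p + 5)) ≤ d := by
      calc 32 * (e * (p + 5)) ≤ 32 * (e * (2 * (p + 3))) := Nat.mul_le_mul_left _ (Nat.mul_le_mul_left _ (by omega))
        _ = 64 * e * (p + 3) := by ring
        _ ≤ d := by omega
    have b4 : 32 * ((f + 3) * (t + (s + 1) * e + k + 1)) ≤ d := by
      have c1 : t + (s + 1) * e + k + 1 ≤ 2 * e * (k + s + t + 1) := by
        nlinarith [Nat.mul_le_mul_right t he, Nat.mul_le_mul_right k he, Nat.zero_le (e * s),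
          Nat.zero_le (e * t), Nat.zero_le (e * k)]
      calc 32 * ((f + 3) * (t + (s + 1) * e + k + 1))
          ≤ 32 * ((f + 3) * (2 * e * (k + s + t + 1))) := by gcongr
        _ = 64 * e * (f + 3) * (k + s + t + 1) := by ring
        _ ≤ C * (k + s + t + 1) := Nat.mul_le_mul_right _ hC2
        _ ≤ d := hd
    have b5 : 4 * (e * (p - 1) * (d / m) + e) + e * (p + 1) =
        4 * (e * (p - 1) * (d / m)) + e * (p + 5) := by ring
    omega
  · -- the tail
    set X : ℝ := (d : ℝ) ^ (e + 1) / (C * (n : ℝ) ^ e) with hX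
    have hq0 : (0 : ℝ) < (d : ℝ) / (32 * n) := by positivity
    have hq1 : (d : ℝ) / (32 * n) ≤ 1 := by
      rw [div_le_one (by positivity)]; linarith
    have hX0 : 0 ≤ X := by rw [hX]; positivity
    have hXd : X ≤ (d : ℝ) / 16 := by
      rw [hX, div_le_div_iff₀ (by positivity) (by norm_num), pow_succ]
      have h1 : (d : ℝ) ^ e ≤ (n : ℝ) ^ e := pow_le_pow_left₀ hdr.le hdnr _
      have h2 : (16 : ℝ) ≤ C := by
        have : 16 ≤ C := by omega
        exact_mod_cast this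
      calc (d : ℝ) ^ e * d * 16 ≤ (n : ℝ) ^ e * d * C := by gcongr
        _ = d * (C * (n : ℝ) ^ e) := by ring
    have hl1 : (1 : ℝ) / 2 < Real.log 2 := by
      have := Real.log_two_gt_d9
      linarith
    have hl2 : Real.log 2 < 1 := by
      have := Real.log_two_lt_d9
      linarith
    have t1 : ∑ D ∈ Finset.Ico (d / 4 - e + 1) (d / 4 - e + e + 1), (1 / 2 : ℝ) ^ D *
        Real.exp (2 * ((d : ℝ) / (32 * n)) * n) ≤ 2 * (2 : ℝ) ^ (-X) := by
      have e0 : 2 * ((d : ℝ) / (32 * n)) * n = d / 16 := by field_simp; norm_num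
      rw [e0]
      have e1 : ∀ D ∈ Finset.Ico (d / 4 - e + 1) (d / 4 - e + e + 1), (1 / 2 : ℝ) ^ D *
          Real.exp ((d : ℝ) / 16) ≤ (1 / 2 : ℝ) ^ (d / 4 - e + 1) * Real.exp ((d : ℝ) / 16) := by
        intro D hD
        rw [Finset.mem_Ico] at hD
        refine mul_le_mul_of_nonneg_right ?_ (Real.exp_pos _).le
        exact pow_le_pow_of_le_one (by norm_num) (by norm_num) hD.1
      refine (Finset.sum_le_sum e1).trans ?_
      rw [Finset.sum_const, Nat.card_Ico, nsmul_eq_mul]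
      have e2 : d / 4 - e + e + 1 - (d / 4 - e + 1) = e := by omega
      rw [e2]
      have e3 : (1 / 2 : ℝ) ^ (d / 4 - e + 1) ≤ (2 : ℝ) ^ (-((d : ℝ) / 4 - e)) := by
        rw [one_div, inv_pow, ← Real.rpow_natCast, ← Real.rpow_neg (by norm_num)]
        refine Real.rpow_le_rpow_of_exponent_le (by norm_num) ?_
        have c1 : (d : ℝ) ≤ 4 * ((d / 4 - e + 1 : ℕ) : ℝ) + 4 * e := by
          have : d ≤ 4 * (d / 4 - e + 1) + 4 * e := by omega
          exact_mod_cast this
        linarith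
      have e4 : Real.exp ((d : ℝ) / 16) ≤ (2 : ℝ) ^ ((d : ℝ) / 8) := by
        rw [Real.rpow_def_of_pos (by norm_num)]
        refine Real.exp_le_exp.2 ?_
        nlinarith
      have e5 : (e : ℝ) ≤ (2 : ℝ) ^ (e : ℝ) := by
        rw [Real.rpow_natCast]
        exact_mod_cast (Nat.lt_two_pow_self (n := e)).le
      have e6 : (2 : ℝ) ^ (e : ℝ) * ((2 : ℝ) ^ (-((d : ℝ) / 4 - e)) * (2 : ℝ) ^ ((d : ℝ) / 8)) ≤
          (2 : ℝ) ^ (-X) := by
        rw [← Real.rpow_add (by norm_num), ← Real.rpow_add (by norm_num)]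
        refine Real.rpow_le_rpow_of_exponent_le (by norm_num) ?_
        have c1 : (64 : ℝ) * e ≤ d := by
          have : 64 * e ≤ d := by omega
          exact_mod_cast this
        linarith
      calc (e : ℝ) * ((1 / 2 : ℝ) ^ (d / 4 - e + 1) * Real.exp ((d : ℝ) / 16))
          ≤ (2 : ℝ) ^ (e : ℝ) * ((2 : ℝ) ^ (-((d : ℝ) / 4 - e)) * (2 : ℝ) ^ ((d : ℝ) / 8)) := by
            gcongr
        _ ≤ (2 : ℝ) ^ (-X) := e6
        _ ≤ 2 * (2 : ℝ) ^ (-X) := by
            have : (0 : ℝ) < (2 : ℝ) ^ (-X) := by positivity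
            linarith
    have t2 : (1 - (1 - 1 / (p : ℝ)) * ((d : ℝ) / (32 * n)) ^ e) ^ (d / m) ≤
        2 * (2 : ℝ) ^ (-X) := by
      have hpr : (2 : ℝ) ≤ p := by exact_mod_cast hp
      have g1 : (1 : ℝ) / 2 ≤ 1 - 1 / (p : ℝ) := by
        have : (1 : ℝ) / p ≤ 1 / 2 := one_div_le_one_div_of_le (by norm_num) hpr
        linarith
      have g2 : 1 - 1 / (p : ℝ) ≤ 1 := by
        have : (0 : ℝ) ≤ 1 / p := by positivity
        linarith
      have g3 : ((d : ℝ) / (32 * n)) ^ e ≤ 1 := pow_le_one₀ hq0.le hq1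
      have g4 : (0 : ℝ) < ((d : ℝ) / (32 * n)) ^ e := by positivity
      set Q : ℝ := ((d : ℝ) / (32 * n)) ^ e with hQ
      have g5 : (0 : ℝ) ≤ 1 - (1 - 1 / (p : ℝ)) * Q := by nlinarith
      have g6 : 1 - (1 - 1 / (p : ℝ)) * Q ≤ Real.exp (-(Q / 2)) := by
        refine le_trans ?_ (Real.add_one_le_exp _)
        nlinarith
      have g7 : (d : ℝ) ≤ 2 * m * ((d / m : ℕ) : ℝ) := by
        have c1 : d < m * (d / m) + m := Nat.lt_mul_div_succ d hm0 |>.trans_le (by
          rw [Nat.mul_add, Nat.mul_one])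
        have c2 : 1 ≤ d / m := (Nat.one_le_div_iff hm0).2 hmd
        have c3 : m * 1 ≤ m * (d / m) := Nat.mul_le_mul_left _ c2
        have c4 : d ≤ 2 * m * (d / m) := by nlinarith
        exact_mod_cast c4
      have g8 : X * Real.log 2 ≤ Q / 2 * ((d / m : ℕ) : ℝ) := by
        have c1 : X ≤ Q / 2 * ((d / m : ℕ) : ℝ) := by
          have c2 : X ≤ Q * d / (4 * m) := by
            rw [hX, hQ, div_pow, mul_pow, pow_succ, ← mul_div_right_comm, div_div,
              div_le_div_iff₀ (by positivity) (by positivity)]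
            have c3 : (32 : ℝ) ^ e * (4 * m) ≤ C := by
              have : 32 ^ e * (4 * m) ≤ C := by
                refine le_trans ?_ hC1
                calc 32 ^ e * (4 * m) = 64 * 32 ^ e * e * (p - 1) := by rw [hm]; ring
                  _ ≤ _ := Nat.mul_le_mul_left _ (by omega)
              exact_mod_cast this
            calc (d : ℝ) ^ e * d * ((32 : ℝ) ^ e * (n : ℝ) ^ e * (4 * m))
                = (d : ℝ) ^ e * d * (n : ℝ) ^ e * ((32 : ℝ) ^ e * (4 * m)) := by ring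
              _ ≤ (d : ℝ) ^ e * d * (n : ℝ) ^ e * C := by gcongr
              _ = _ := by ring
          refine c2.trans ?_
          have hmr : (0 : ℝ) < m := by exact_mod_cast hm0
          rw [div_le_iff₀ (by positivity)]
          nlinarith
        calc X * Real.log 2 ≤ X * 1 := mul_le_mul_of_nonneg_left hl2.le hX0
          _ ≤ _ := by rw [mul_one]; exact c1
      calc (1 - (1 - 1 / (p : ℝ)) * Q) ^ (d / m) ≤ (Real.exp (-(Q / 2))) ^ (d / m) :=
            pow_le_pow_left₀ g5 g6 _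
        _ = Real.exp (((d / m : ℕ) : ℝ) * (-(Q / 2))) := (Real.exp_nat_mul _ _).symm
        _ ≤ Real.exp (Real.log 2 * (-X)) := Real.exp_le_exp.2 (by linarith)
        _ = (2 : ℝ) ^ (-X) := by rw [Real.rpow_def_of_pos (by norm_num)]
        _ ≤ 2 * (2 : ℝ) ^ (-X) := by
            have : (0 : ℝ) < (2 : ℝ) ^ (-X) := by positivity
            linarith
    linarith

end SizeDegree
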