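import Pool.Agent.H85.SD.Fin
import Pool.Agent.H89.SD.Gate
import Pool.Agent.H89.SD.Num4

/-!
helper89: the size-degree theorem for the polynomial calculus with products of arbitrarily many conditions.
-/

set_option autoImplicit false
open scoped Classical

namespace SizeDegree

open H85SD

variable {p n : ℕ}

theorem sum_times {P : PLine p n} {L : Finset (Pt n → ZMod p)} {a : Finset (Pt n → ZMod p) → Pt n → ZMod p} :
    (P.times L).sum (fun M c => c * a M) = ∑ M ∈ P.support, P M * a (M ∪ L) := by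
  unfold PLine.times
  rw [Finsupp.sum_mapDomain_index (fun _ => zero_mul _) (fun _ _ _ => add_mul _ _ _)]
  rfl

theorem deg_times {t : ℕ} {P : PLine p n} (hP : ∀ M, P M ∈ PP p n t) (L : Finset (Pt n → ZMod p)) (M : Finset (Pt n → ZMod p)) :
    P.times L M ∈ PP p n t := by
  unfold PLine.times Finsupp.mapDomain
  rw [Finsupp.sum_apply]
  refine Submodule.sum_mem _ fun A _ => ?_
  beta_reduce
  rw [Finsupp.single_apply]
  split_ifs
  · exact hP A
  · exact Submodule.zero_mem _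

theorem supp_times {P : PLine p n} {L : Finset (Pt n → ZMod p)} {𝓜 : Finset (Finset (Pt n → ZMod p))}
    (h : ∀ M ∈ P.support, M ∪ L ∈ 𝓜) : ∀ M ∈ (P.times L).support, M ∈ 𝓜 := by
  intro M hM
  obtain ⟨A, hA, rfl⟩ := Finset.mem_image.1 (Finsupp.mapDomain_support hM)
  exact h A hA

theorem neg_prod {C : Clause n} : ∏ g ∈ Clause.neg p C, g = fun x => if C.Holds x then (0 : ZMod p) else 1 := by
  funext x
  rw [Finset.prod_apply]
  by_cases hx : C.Holds x
  · rw [if_pos hx]
    obtain ⟨l, hl, hlx⟩ := hx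
    refine Finset.prod_eq_zero (Finset.mem_image_of_mem _ hl) ?_
    exact if_pos hlx
  · rw [if_neg hx]
    refine Finset.prod_eq_one fun g hg => ?_
    obtain ⟨l, hl, rfl⟩ := Finset.mem_image.1 hg
    exact if_neg fun h => hx ⟨l, hl, h⟩

theorem neg_deg {C : Clause n} : ∀ g ∈ Clause.neg p C, 1 - g ∈ PP p n 1 := by
  intro g hg
  obtain ⟨l, _, rfl⟩ := Finset.mem_image.1 hg
  have h : (1 : Pt n → ZMod p) - (fun x => if x l.1 = l.2 then (0 : ZMod p) else 1) =
      fun x : Pt n => if x l.1 = l.2 then (1 : ZMod p) else 0 := by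
    funext x
    rw [Pi.sub_apply, Pi.one_apply]
    split_ifs <;> simp
  rw [h]
  exact PP_lit l

/-- soundness modulo `K` of the polynomial calculus with products -/
theorem prod_sound [Fact p.Prime] {m e t s k D W d : ℕ} (Φ : Fin m → Clause n) (hk : ∀ j, (Φ j).card ≤ k)
    {𝓜 : Finset (Finset (Pt n → ZMod p))} (h𝓜 : ∀ M ∈ 𝓜, ∀ g ∈ M, Cond e g) {f : Pt n → ZMod p} (hf : f ∈ PP p n D)
    {a : Finset (Pt n → ZMod p) → Pt n → ZMod p} (ha : ∀ M ∈ 𝓜, GApp (TT p Φ d) W f a M)
    (hd : D + 3 * W + e + e * (s + 1) + 2 * t + k ≤ d) {P : PLine p n} (hP : PDerives Φ t s 𝓜 P) :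
    (∀ M, P M ∈ PP p n t) ∧ (∀ M ∈ P.support, M ∈ 𝓜) ∧ f * (P.sum fun M c => c * a M) ∈ KK p Φ d := by
  have hes : e * (s + 1) = e * s + e := by ring
  have hid : ∀ {g : Pt n → ZMod p}, Cond e g → g * g = g := by
    intro g hg
    funext x
    rcases hg.2 x with h | h <;> simp [h]
  have hdegsum : ∀ {P : PLine p n}, (∀ M, P M ∈ PP p n t) → (∀ M ∈ P.support, M ∈ 𝓜) →
      (P.sum fun M c => c * a M) ∈ PP p n (t + W) := by
    intro P h1 h2
    exact Submodule.sum_mem _ fun M hM => PP_mul (h1 M) (ha M (h2 M hM)).deg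
  induction hP with
  | @clause j M hM hsub =>
    refine ⟨fun M' => ?_, fun M' hM' => ?_, ?_⟩
    · rw [Finsupp.single_apply]
      split_ifs
      · exact PP_mono (Nat.zero_le t) PP_one
      · exact Submodule.zero_mem _
    · have := Finsupp.support_single_subset hM'
      rw [Finset.mem_singleton.1 this]
      exact hM
    · rw [Finsupp.sum_single_index (zero_mul _), one_mul]
      have hG := ha M hM
      have hfa : f * a M ∈ PP p n (D + W) := PP_mul hf hG.deg
      have hc : (Clause.neg p (Φ j)).card ≤ k := Finset.card_image_le.trans (hk j)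
      have h1 := prod_abs (TT p Φ d) (F := f * a M) hfa (fun g : Pt n → ZMod p => 1 - g) (Clause.neg p (Φ j)) (δ := 1)
        (fun g hg => neg_deg g hg) (fun g hg => by rw [mul_assoc]; exact hG.kil g (hsub hg)) (by
          change D + W + 1 * (Clause.neg p (Φ j)).card ≤ d
          omega)
      have h2 : ∏ g ∈ Clause.neg p (Φ j), (1 - (1 - g)) = fun x => if (Φ j).Holds x then (0 : ZMod p) else 1 := by
        rw [← neg_prod]
        exact Finset.prod_congr rfl fun g _ => by ring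
      rw [h2] at h1
      have h3 : f * a M * (fun x => if (Φ j).Holds x then (0 : ZMod p) else 1) ∈ KK p Φ d := by
        rw [mul_comm]
        exact KK_abs Φ (Derives.clause j) (clause_deg Φ d (Φ j) (hk j)) hfa (by omega)
      have h4 := (KK p Φ d).add_mem h1 h3
      rw [sub_add_cancel] at h4
      exact h4
  | ident L Q hQ hc h0 hM =>
    have hQP : ∀ M, Q M ∈ PP p n t := hQ
    refine ⟨deg_times hQP L, supp_times hM, ?_⟩
    rw [sum_times]
    have hBe : ∀ g ∈ Q.support.biUnion id, Cond e g := by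
      intro g hg
      obtain ⟨A, hA, hgA⟩ := Finset.mem_biUnion.1 hg
      exact h𝓜 _ (hM A hA) g (Finset.mem_union_left _ hgA)
    refine gC (TT p Φ d) (B := Q.support.biUnion id) (t := t) (e := e) (s := s) (D := D) (W := W) hf hQP
      (fun A hA => Finset.subset_biUnion_of_mem id hA) hc (fun g hg => (hBe g hg).1) (fun g hg => hid (hBe g hg))
      (fun A hA g hg => (h𝓜 _ (hM A hA) g hg).1) (fun A hA => ha _ (hM A hA)) ?_ ?_
    · funext x
      have h1 := h0 x
      unfold PLine.val Finsupp.sum at h1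
      rw [Finset.sum_apply, Pi.zero_apply, ← h1]
      refine Finset.sum_congr rfl fun A _ => ?_
      rw [Pi.mul_apply, Finset.prod_apply]
    · change D + 2 * W + e + e * s + t ≤ d
      omega
  | @span M M' hM hM' hsp =>
    refine ⟨fun A => ?_, fun A hA => ?_, ?_⟩
    · rw [Finsupp.sub_apply, Finsupp.single_apply, Finsupp.single_apply]
      refine (PP p n t).sub_mem ?_ ?_
      · split_ifs
        · exact PP_mono (Nat.zero_le t) PP_one
        · exact Submodule.zero_mem _
      · split_ifs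
        · exact PP_mono (Nat.zero_le t) PP_one
        · exact Submodule.zero_mem _
    · rcases Finset.mem_union.1 (Finsupp.support_sub hA) with h | h
      · rw [Finset.mem_singleton.1 (Finsupp.support_single_subset h)]
        exact hM
      · rw [Finset.mem_singleton.1 (Finsupp.support_single_subset h)]
        exact hM'
    · rw [Finsupp.sum_sub_index (fun _ _ _ => sub_mul _ _ _), Finsupp.sum_single_index (zero_mul _),
        Finsupp.sum_single_index (zero_mul _), one_mul, one_mul, mul_sub]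
      exact gS (TT p Φ d) (W := W) (e := e) hf (ha M hM) (ha M' hM') (fun g hg => (h𝓜 M hM g hg).1)
        (fun g hg => (h𝓜 M' hM' g hg).1) hsp (by
          change D + W + e + W ≤ d
          omega)
  | add _ _ ih1 ih2 =>
    obtain ⟨a1, b1, c1⟩ := ih1
    obtain ⟨a2, b2, c2⟩ := ih2
    refine ⟨fun M => ?_, fun M hM => ?_, ?_⟩
    · rw [Finsupp.add_apply]
      exact (PP p n t).add_mem (a1 M) (a2 M)
    · rcases Finset.mem_union.1 (Finsupp.support_add hM) with h | h
      · exact b1 M h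
      · exact b2 M h
    · rw [Finsupp.sum_add_index' (fun _ => zero_mul _) (fun _ _ _ => add_mul _ _ _), mul_add]
      exact (KK p Φ d).add_mem c1 c2
  | @coef h P _ hh hdeg ih =>
    obtain ⟨a1, b1, c1⟩ := ih
    refine ⟨fun M => ?_, fun M hM => ?_, ?_⟩
    · unfold PLine.coef
      rw [Finsupp.mapRange_apply]
      exact hdeg M
    · unfold PLine.coef at hM
      exact b1 M (Finsupp.support_mapRange hM)
    · unfold PLine.coef
      rw [Finsupp.sum_mapRange_index (fun _ => zero_mul _)]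
      have h1 : f * (P.sum fun M c => h * c * a M) = f * (P.sum fun M c => c * a M) * h := by
        unfold Finsupp.sum
        rw [mul_assoc, Finset.sum_mul]
        congr 1
        exact Finset.sum_congr rfl fun M _ => by ring
      rw [h1]
      exact KK_abs Φ c1 (PP_mul hf (hdegsum a1 b1)) hh (by omega)
  | @times g P _ hM ih =>
    obtain ⟨a1, b1, c1⟩ := ih
    refine ⟨deg_times a1 {g}, supp_times hM, ?_⟩
    rw [sum_times]
    by_cases hne : P.support.Nonempty
    · obtain ⟨M0, hM0⟩ := hne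
      have hg : Cond e g := h𝓜 _ (hM M0 hM0) g (Finset.mem_union_right _ (Finset.mem_singleton_self g))
      have h1 : f * ∑ M ∈ P.support, P M * a (M ∪ {g}) =
          ∑ M ∈ P.support, (f * a (M ∪ {g}) - f * a M * g) * P M + f * (P.sum fun M c => c * a M) * g := by
        unfold Finsupp.sum
        rw [Finset.mul_sum, Finset.mul_sum, Finset.sum_mul, ← Finset.sum_add_distrib]
        exact Finset.sum_congr rfl fun M _ => by ring
      rw [h1]
      refine (KK p Φ d).add_mem (Submodule.sum_mem _ fun M hMs => ?_) (KK_abs Φ c1 (PP_mul hf (hdegsum a1 b1)) hg.1 (by omega))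
      have h2 := gB (TT p Φ d) (W := W) (e := e) (a := a) (M := M) (g := g) hf (ha M (b1 M hMs)) (ha _ (hM M hMs))
        (fun g' hg' => (h𝓜 _ (hM M hMs) g' hg').1) (hid hg) (by
          change D + W + e + e + W ≤ d
          omega)
      have h3 : f * a (M ∪ {g}) - f * a M * g ∈ PP p n (D + W + e) :=
        (PP p n _).sub_mem (PP_mono (by omega) (PP_mul hf (ha _ (hM M hMs)).deg))
          (PP_mul (PP_mul hf (ha M (b1 M hMs)).deg) hg.1)
      exact KK_abs Φ h2 h3 (a1 M) (by omega)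
    · rw [Finset.not_nonempty_iff_eq_empty] at hne
      rw [hne, Finset.sum_empty, mul_zero]
      exact (KK p Φ d).zero_mem
  | @prod L P _ hL hM ih =>
    obtain ⟨a1, b1, c1⟩ := ih
    refine ⟨deg_times a1 L, supp_times hM, ?_⟩
    rw [sum_times]
    have h1 : f * ∑ M ∈ P.support, P M * a (M ∪ L) =
        ∑ M ∈ P.support, (f * a (M ∪ L) - f * a M * a L) * P M + f * (P.sum fun M c => c * a M) * a L := by
      unfold Finsupp.sum
      rw [Finset.mul_sum, Finset.mul_sum, Finset.sum_mul, ← Finset.sum_add_distrib]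
      exact Finset.sum_congr rfl fun M _ => by ring
    rw [h1]
    refine (KK p Φ d).add_mem (Submodule.sum_mem _ fun M hMs => ?_)
      (KK_abs Φ c1 (PP_mul hf (hdegsum a1 b1)) (ha L hL).deg (by omega))
    have h2 := gP (TT p Φ d) (W := W) (e := e) (a := a) (M := M) (L := L) hf (ha M (b1 M hMs)) (ha L hL) (ha _ (hM M hMs))
      (fun g' hg' => (h𝓜 _ (hM M hMs) g' hg').1) (by
        change D + W + W + e + W ≤ d
        omega)
    have h3 : f * a (M ∪ L) - f * a M * a L ∈ PP p n (D + W + W) :=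
      (PP p n _).sub_mem (PP_mono (by omega) (PP_mul hf (ha _ (hM M hMs)).deg))
        (PP_mul (PP_mul hf (ha M (b1 M hMs)).deg) (ha L hL).deg)
    exact KK_abs Φ h2 h3 (a1 M) (by omega)

/-- the counting bound for the products form -/
theorem prod_count [Fact p.Prime] {m e t s k D0 w d N : ℕ} (Φ : Fin m → Clause n)
    (hk : ∀ j, (Φ j).card ≤ k) (h1 : ¬ Derives (p := p) Φ d 1) (href : PRefutes p e t s Φ N)
    {q : ℝ} (hq : 0 < q) (hq1 : 2 * q ≤ 1)
    (hd : D0 + e + 4 * (e * (p - 1) * w + e) + e * (p + 1) + (0 + 3) * (t + (s + 1) * e + k + 1) ≤ d) :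
    1 ≤ (N : ℝ) * (∑ D ∈ Finset.Ico (D0 + 1) (D0 + e + 1), (1 / 2 : ℝ) ^ D * Real.exp (2 * q * n) +
        (1 - (1 - 1 / (p : ℝ)) * q ^ e) ^ w) := by
  by_contra hcon
  push Not at hcon
  obtain ⟨𝓜, hN, h𝓜, hder⟩ := href
  have htau := tau_le (p := p) Φ d hq hq1 D0 e
  have hp2 : 2 ≤ p := (Fact.out : p.Prime).two_le
  have hp0 : (0 : ℝ) < p := by exact_mod_cast (by omega : 0 < p)
  have hp1 : (0 : ℝ) ≤ 1 - 1 / (p : ℝ) := by
    rw [sub_nonneg, div_le_one hp0]
    exact_mod_cast (by omega : 1 ≤ p)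
  have hp1' : 1 - 1 / (p : ℝ) ≤ 1 := by
    have : 0 ≤ 1 / (p : ℝ) := by positivity
    linarith
  have hth : 0 ≤ 1 - (1 - 1 / (p : ℝ)) * q ^ e := by
    have := mul_le_one₀ hp1' (pow_nonneg hq.le e) (pow_le_one₀ hq.le (by linarith : q ≤ 1))
    linarith
  have htau0 : 0 ≤ tau (TT p Φ d) q D0 e :=
    Finset.sum_nonneg fun D _ => mul_nonneg (pow_nonneg hq.le D) (Nat.cast_nonneg _)
  obtain ⟨D, f, a, hD, hf, hfK, ha⟩ := exists_f (TT p Φ d) (ι := {M // M ∈ 𝓜})
    (fun M => {u | ∃ g ∈ M.1, u = 1 - g}) (e := e) (D0 := D0) (w := w)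
    (fun M u hu => by
      obtain ⟨g, hg, rfl⟩ := hu
      exact one_sub_mem (TT p Φ d) (h𝓜 M.1 M.2 g hg).1) (fun M u hu => by
      obtain ⟨g, hg, rfl⟩ := hu
      funext x
      rcases (h𝓜 M.1 M.2 g hg).2 x with h | h <;> simp [h]) h1 (by
      change D0 + e + (e * (p - 1) * w + e) + e * (p + 1) ≤ d
      omega) hq (by linarith) (by
      rw [Fintype.card_coe]
      refine lt_of_le_of_lt (mul_le_mul (by exact_mod_cast hN) (add_le_add htau le_rfl) ?_ (Nat.cast_nonneg _)) hcon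
      exact add_nonneg htau0 (pow_nonneg hth w))
  let b : Finset (Pt n → ZMod p) → Pt n → ZMod p := fun M => if h : M ∈ 𝓜 then a ⟨M, h⟩ else 0
  have hb : ∀ M (h : M ∈ 𝓜), b M = a ⟨M, h⟩ := fun M h => dif_pos h
  have hG : ∀ M ∈ 𝓜, GApp (TT p Φ d) (e * (p - 1) * w) f b M := by
    intro M hM
    obtain ⟨g1, _, ⟨mm, c, u, hc, hu, hsum⟩, g4⟩ := ha ⟨M, hM⟩
    choose g hg hgu using hu
    refine ⟨by rw [hb M hM]; exact g1, ⟨mm, c, g, hc, hg, ?_⟩, ?_⟩
    · rw [hb M hM, hsum]
      exact Finset.sum_congr rfl fun r _ => by rw [hgu r]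
    · intro g hg
      rw [hb M hM]
      exact g4 (1 - g) ⟨g, hg, rfl⟩
  obtain ⟨_, hs, hfin⟩ := prod_sound (W := e * (p - 1) * w) (D := D) (s := s) (t := t) (k := k) Φ hk h𝓜 hf hG (by
    have hes : e * (s + 1) = (s + 1) * e := by ring
    rw [hes]
    omega) hder
  have h10 : (1 : Pt n → ZMod p) ≠ 0 := by
    intro h
    have := congrFun h (fun _ => true)
    exact one_ne_zero this
  have he𝓜 : (∅ : Finset (Pt n → ZMod p)) ∈ 𝓜 := hs ∅ (by
    rw [Finsupp.mem_support_iff, Finsupp.single_eq_same]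
    exact h10)
  rw [Finsupp.sum_single_index (zero_mul _), one_mul] at hfin
  obtain ⟨mm, c, g, _, hg, hsum⟩ := (hG ∅ he𝓜).com
  have hb1 : b ∅ = 1 := by
    have : ∑ r, c r * (1 - g r) = 0 := Finset.sum_eq_zero fun r _ => absurd (hg r) (Finset.notMem_empty _)
    rw [this, sub_eq_zero] at hsum
    exact hsum.symm
  rw [hb1, mul_one] at hfin
  exact hfK hfin

/-- the size-degree theorem, products form -/
theorem prod_bound (p : ℕ) [Fact p.Prime] (e : ℕ) (he : 1 ≤ e) : ∃ C : ℕ, 0 < C ∧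
    ∀ (n d k s t m N : ℕ) (Φ : Fin m → Clause n), d ≤ n → C * (k + s + t + 1) ≤ d → (∀ j, (Φ j).card ≤ k) →
      ¬ Derives (p := p) Φ d 1 → PRefutes p e t s Φ N →
      (2 : ℝ) ^ ((d : ℝ) ^ (e + 1) / (C * (n : ℝ) ^ e)) ≤ 4 * N := by
  obtain ⟨C, hC, h⟩ := num4 p e 0 (Fact.out : p.Prime).two_le he
  refine ⟨C, hC, ?_⟩
  intro n d k s t m N Φ hdn hCd hk h1 href
  obtain ⟨D0, w, q, hq, hq1, hd, hnum⟩ := h n d k s t hdn hCd
  have h2 := prod_count Φ hk h1 href hq hq1 hd
  have hN0 : (0 : ℝ) ≤ N := Nat.cast_nonneg _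
  have h3 : (1 : ℝ) ≤ N * (4 * (2 : ℝ) ^ (-((d : ℝ) ^ (e + 1) / (C * (n : ℝ) ^ e)))) :=
    h2.trans (mul_le_mul_of_nonneg_left hnum hN0)
  have h4 : (0 : ℝ) < (2 : ℝ) ^ ((d : ℝ) ^ (e + 1) / (C * (n : ℝ) ^ e)) := Real.rpow_pos_of_pos (by norm_num) _
  rw [Real.rpow_neg (by norm_num)] at h3
  calc (2 : ℝ) ^ ((d : ℝ) ^ (e + 1) / (C * (n : ℝ) ^ e))
      ≤ (2 : ℝ) ^ ((d : ℝ) ^ (e + 1) / (C * (n : ℝ) ^ e)) *
        (N * (4 * ((2 : ℝ) ^ ((d : ℝ) ^ (e + 1) / (C * (n : ℝ) ^ e)))⁻¹)) := le_mul_of_one_le_right h4.le h3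
    _ = 4 * N := by field_simp

end SizeDegree
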