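import Pool.Agent.H89.SD.Sim

/-!
helper89: every unsatisfiable CNF has a refutation in the polynomial calculus with products (coefficients of degree 0,
identities with two conditions).
-/

set_option autoImplicit false
open scoped Classical

namespace SizeDegree

variable {p n m : ℕ}

/-- the condition that variable `i` has its value in `x` -/
noncomputable def lit (p : ℕ) {n : ℕ} (x : Pt n) (i : Fin n) : Pt n → ZMod p := fun z => if z i = x i then 1 else 0

theorem lit_cond {e : ℕ} (he : 1 ≤ e) (x : Pt n) (i : Fin n) : Cond e (lit p x i) := by
  refine ⟨PP_mono he (PP_lit (i, x i)), fun z => ?_⟩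
  by_cases h : z i = x i
  · right; exact if_pos h
  · left; exact if_neg h

theorem exists_prefutes {e : ℕ} [Fact p.Prime] (he : 1 ≤ e) (Φ : Fin m → Clause n)
    (hun : ¬ ∃ x : Pt n, ∀ j, (Φ j).Holds x) : ∃ N, PRefutes p e 0 2 Φ N := by
  set 𝓜 : Finset (Finset (Pt n → ZMod p)) := Finset.univ.filter fun M => ∀ g ∈ M, Cond e g with h𝓜
  refine ⟨𝓜.card, 𝓜, le_rfl, fun M hM => (Finset.mem_filter.1 hM).2, ?_⟩
  have hin : ∀ (S : Finset (Fin n)) (x : Pt n), S.image (lit p x) ∈ 𝓜 := by
    intro S x
    rw [h𝓜, Finset.mem_filter]
    refine ⟨Finset.mem_univ _, fun g hg => ?_⟩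
    obtain ⟨i, _, rfl⟩ := Finset.mem_image.1 hg
    exact lit_cond he x i
  have key : ∀ T : Finset (Fin n), ∀ x : Pt n, PDerives Φ 0 2 𝓜 (Finsupp.single (Tᶜ.image (lit p x)) 1) := by
    intro T
    induction T using Finset.induction_on with
    | empty =>
      intro x
      have h1 : ∃ j, ¬ (Φ j).Holds x := by
        by_contra hcon
        push Not at hcon
        exact hun ⟨x, hcon⟩
      obtain ⟨j, hj⟩ := h1
      refine PDerives.clause j (hin _ x) ?_
      intro g hg
      obtain ⟨l, hl, rfl⟩ := Finset.mem_image.1 hg
      rw [Finset.compl_empty]
      refine Finset.mem_image.2 ⟨l.1, Finset.mem_univ _, ?_⟩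
      have hx : x l.1 ≠ l.2 := fun h => hj ⟨l, hl, h⟩
      funext z
      unfold lit
      by_cases hz : z l.1 = l.2
      · rw [if_pos hz, if_neg (fun h => hx (h.symm.trans hz))]
      · have h2 : z l.1 = x l.1 := by
          revert hz hx
          cases z l.1 <;> cases x l.1 <;> cases l.2 <;> simp
        rw [if_neg hz, if_pos h2]
    | insert i T hi ih =>
      intro x
      set M : Finset (Pt n → ZMod p) := (insert i T)ᶜ.image (lit p x) with hM
      have hT : Tᶜ = insert i (insert i T)ᶜ := by
        ext a
        rw [Finset.mem_compl, Finset.mem_insert, Finset.mem_compl, Finset.mem_insert]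
        constructor
        · intro h
          by_cases ha : a = i
          · exact Or.inl ha
          · exact Or.inr fun h' => h'.elim ha h
        · rintro (rfl | h)
          · exact hi
          · exact fun h' => h (Or.inr h')
      let x' : Pt n := Function.update x i (!x i)
      have e1 : Tᶜ.image (lit p x) = {lit p x i} ∪ M := by
        rw [hT, Finset.image_insert]
        rfl
      have e2 : Tᶜ.image (lit p x') = {lit p x' i} ∪ M := by
        rw [hT, Finset.image_insert]
        have h1 : (insert i T)ᶜ.image (lit p x') = M := by
          rw [hM]
          refine Finset.image_congr fun a ha => ?_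
          have hai : a ≠ i := by
            rintro rfl
            have := Finset.mem_coe.1 ha
            rw [Finset.mem_compl] at this
            exact this (Finset.mem_insert_self _ _)
          funext z
          have h2 : x' a = x a := Function.update_of_ne hai _ _
          unfold lit
          rw [h2]
        rw [h1]
        rfl
      have hMm : M ∈ 𝓜 := hin _ x
      have h1 : PDerives Φ 0 2 𝓜 (PLine.times (Finsupp.single ∅ 1 +
          (Finsupp.single {lit p x i} (-1) + Finsupp.single {lit p x' i} (-1))) M) := by
        have hsupp : ∀ B ∈ (Finsupp.single ∅ 1 +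
            (Finsupp.single {lit p x i} (-1) + Finsupp.single {lit p x' i} (-1)) : PLine p n).support,
            B = ∅ ∨ B = {lit p x i} ∨ B = {lit p x' i} := by
          intro B hB
          rcases Finset.mem_union.1 (Finsupp.support_add hB) with h | h
          · exact Or.inl (Finset.mem_singleton.1 (Finsupp.support_single_subset h))
          · rcases Finset.mem_union.1 (Finsupp.support_add h) with h | h
            · exact Or.inr (Or.inl (Finset.mem_singleton.1 (Finsupp.support_single_subset h)))
            · exact Or.inr (Or.inr (Finset.mem_singleton.1 (Finsupp.support_single_subset h)))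
        have h10 : ∀ (A B : Finset (Pt n → ZMod p)) (c : Pt n → ZMod p), c ∈ PP p n 0 →
            (Finsupp.single A c : PLine p n) B ∈ PP p n 0 := by
          intro A B c hc
          rw [Finsupp.single_apply]
          split_ifs
          · exact hc
          · exact (PP p n 0).zero_mem
        refine PDerives.ident M _ (fun B => ?_) ?_ (fun z => ?_) (fun B hB => ?_)
        · show (Finsupp.single ∅ 1 + (Finsupp.single {lit p x i} (-1) + Finsupp.single {lit p x' i} (-1)) : PLine p n) B ∈
            PP p n 0
          rw [Finsupp.add_apply, Finsupp.add_apply]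
          exact (PP p n 0).add_mem (h10 _ _ _ PP_one)
            ((PP p n 0).add_mem (h10 _ _ _ ((PP p n 0).neg_mem PP_one)) (h10 _ _ _ ((PP p n 0).neg_mem PP_one)))
        · refine le_trans (Finset.card_le_card (t := {lit p x i, lit p x' i}) ?_) Finset.card_le_two
          intro g hg
          obtain ⟨B, hB, hgB⟩ := Finset.mem_biUnion.1 hg
          rcases hsupp B hB with rfl | rfl | rfl
          · exact absurd hgB (Finset.notMem_empty _)
          · rw [Finset.mem_singleton.1 hgB]
            exact Finset.mem_insert_self _ _
          · rw [Finset.mem_singleton.1 hgB]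
            exact Finset.mem_insert_of_mem (Finset.mem_singleton_self _)
        · have hz : (0 : Pt n → ZMod p) z = 0 := rfl
          unfold PLine.val
          rw [Finsupp.sum_add_index' (fun _ => by rw [hz, zero_mul]) (fun _ _ _ => by rw [Pi.add_apply, add_mul]),
            Finsupp.sum_add_index' (fun _ => by rw [hz, zero_mul]) (fun _ _ _ => by rw [Pi.add_apply, add_mul]),
            Finsupp.sum_single_index (by rw [hz, zero_mul]), Finsupp.sum_single_index (by rw [hz, zero_mul]),
            Finsupp.sum_single_index (by rw [hz, zero_mul]), Finset.prod_empty, Finset.prod_singleton,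
            Finset.prod_singleton, Pi.neg_apply, Pi.one_apply]
          have hx' : x' i = !x i := Function.update_self _ _ _
          unfold lit
          rw [hx']
          cases z i <;> cases x i <;> simp
        · have hLM : ∀ y : Pt n, {lit p y i} ∪ M ∈ 𝓜 := by
            intro y
            rw [h𝓜, Finset.mem_filter]
            refine ⟨Finset.mem_univ _, fun g hg => ?_⟩
            rcases Finset.mem_union.1 hg with h | h
            · rw [Finset.mem_singleton.1 h]
              exact lit_cond he y i
            · exact (Finset.mem_filter.1 hMm).2 g h
          rcases hsupp B hB with rfl | rfl | rfl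
          · rw [Finset.empty_union]
            exact hMm
          · exact hLM x
          · exact hLM x'
      have h2 : PLine.times (Finsupp.single ∅ 1 + (Finsupp.single {lit p x i} (-1) + Finsupp.single {lit p x' i} (-1))) M =
          (Finsupp.single M 1 + (Finsupp.single ({lit p x i} ∪ M) (-1) + Finsupp.single ({lit p x' i} ∪ M) (-1)) :
            PLine p n) := by
        unfold PLine.times
        rw [Finsupp.mapDomain_add, Finsupp.mapDomain_add, Finsupp.mapDomain_single, Finsupp.mapDomain_single,
          Finsupp.mapDomain_single, Finset.empty_union]
      rw [h2] at h1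
      have h3 := ih x
      have h4 := ih x'
      rw [e1] at h3
      rw [e2] at h4
      have h5 := PDerives.add h1 (PDerives.add h3 h4)
      have h6 : (Finsupp.single M 1 + (Finsupp.single ({lit p x i} ∪ M) (-1) + Finsupp.single ({lit p x' i} ∪ M) (-1)) +
          (Finsupp.single ({lit p x i} ∪ M) 1 + Finsupp.single ({lit p x' i} ∪ M) 1) : PLine p n) = Finsupp.single M 1 := by
        rw [add_assoc, add_add_add_comm, ← Finsupp.single_add, ← Finsupp.single_add, neg_add_cancel, Finsupp.single_zero,
          Finsupp.single_zero, add_zero, add_zero]
      rw [h6] at h5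
      exact h5
  have h := key Finset.univ (fun _ => true)
  rw [Finset.compl_univ, Finset.image_empty] at h
  exact h

end SizeDegree
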