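import Pool.Agent.H89.SD.Prod

/-!
helper89: the polynomial calculus with products simulates the lines form (disjunctions of conditions, local inferences).
-/

set_option autoImplicit false
open scoped Classical

namespace SizeDegree

open H85SD

variable {p n m : ℕ}

/-- the negations of the conditions in `E` -/
noncomputable def cmp (E : Finset (Pt n → ZMod p)) : Finset (Pt n → ZMod p) := E.image fun g => 1 - g

theorem cmp_prod (E : Finset (Pt n → ZMod p)) : ∏ g ∈ cmp E, g = ∏ g ∈ E, (1 - g) := by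
  unfold cmp
  rw [Finset.prod_image]
  intro a _ b _ h
  exact sub_right_injective h

theorem cmp_card (E : Finset (Pt n → ZMod p)) : (cmp E).card ≤ E.card := Finset.card_image_le

theorem cmp_set (E : Finset (Pt n → ZMod p)) : {u | ∃ g ∈ cmp E, u = 1 - g} = (E : Set (Pt n → ZMod p)) := by
  ext u
  constructor
  · rintro ⟨g, hg, rfl⟩
    obtain ⟨h, hh, rfl⟩ := Finset.mem_image.1 hg
    have : (1 : Pt n → ZMod p) - (1 - h) = h := by ring
    rw [this]
    exact hh
  · intro hu
    exact ⟨1 - u, Finset.mem_image_of_mem _ hu, by ring⟩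

theorem set_union (M M' : Finset (Pt n → ZMod p)) : {u | ∃ g ∈ M ∪ M', u = 1 - g} =
    {u | ∃ g ∈ M, u = 1 - g} ∪ {u | ∃ g ∈ M', u = 1 - g} := by
  ext u
  constructor
  · rintro ⟨g, hg, hu⟩
    rcases Finset.mem_union.1 hg with h | h
    · exact Or.inl ⟨g, h, hu⟩
    · exact Or.inr ⟨g, h, hu⟩
  · rintro (⟨g, hg, hu⟩ | ⟨g, hg, hu⟩)
    · exact ⟨g, Finset.mem_union_left _ hg, hu⟩
    · exact ⟨g, Finset.mem_union_right _ hg, hu⟩

theorem cmp_cond {e : ℕ} {E : Finset (Pt n → ZMod p)} (hE : ∀ g ∈ E, Cond e g) : ∀ g ∈ cmp E, Cond e g := by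
  intro g hg
  obtain ⟨h, hh, rfl⟩ := Finset.mem_image.1 hg
  refine ⟨(PP p n e).sub_mem (PP_mono (Nat.zero_le e) PP_one) (hE h hh).1, fun x => ?_⟩
  rcases (hE h hh).2 x with h1 | h1
  · right
    rw [Pi.sub_apply, Pi.one_apply, h1, sub_zero]
  · left
    rw [Pi.sub_apply, Pi.one_apply, h1, sub_self]

theorem neg_cond {e : ℕ} (he : 1 ≤ e) (C : Clause n) : ∀ g ∈ Clause.neg p C, Cond e g := by
  intro g hg
  have h1 : 1 - g ∈ PP p n 1 := neg_deg g hg
  refine ⟨?_, fun x => ?_⟩
  · have h2 : g ∈ PP p n 1 := by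
      have h3 := (PP p n 1).sub_mem (PP_mono (Nat.zero_le 1) PP_one) h1
      have h4 : (1 : Pt n → ZMod p) - (1 - g) = g := by ring
      rwa [h4] at h3
    exact PP_mono he h2
  · obtain ⟨l, _, rfl⟩ := Finset.mem_image.1 hg
    by_cases h : x l.1 = l.2
    · left; exact if_pos h
    · right; exact if_neg h

section rules
variable {Φ : Fin m → Clause n} {T S : ℕ} {𝓜 : Finset (Finset (Pt n → ZMod p))}

/-- the equation `c M = 0` is derived -/
def ZZ (Φ : Fin m → Clause n) (T S : ℕ) (𝓜 : Finset (Finset (Pt n → ZMod p))) (M : Finset (Pt n → ZMod p))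
    (c : Pt n → ZMod p) : Prop := PDerives Φ T S 𝓜 (Finsupp.single M c)

theorem ZZ_add {M : Finset (Pt n → ZMod p)} {c c' : Pt n → ZMod p} (h : ZZ Φ T S 𝓜 M c) (h' : ZZ Φ T S 𝓜 M c') :
    ZZ Φ T S 𝓜 M (c + c') := by
  unfold ZZ
  rw [Finsupp.single_add]
  exact PDerives.add h h'

theorem ZZ_mul {M : Finset (Pt n → ZMod p)} {c h : Pt n → ZMod p} (hc : ZZ Φ T S 𝓜 M c) (hh : h ∈ PP p n T)
    (hhc : h * c ∈ PP p n T) : ZZ Φ T S 𝓜 M (h * c) := by
  unfold ZZ
  have h1 : (Finsupp.single M (h * c) : PLine p n) = PLine.coef (Finsupp.single M c) h := by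
    unfold PLine.coef
    rw [Finsupp.mapRange_single]
  rw [h1]
  refine PDerives.coef h hc hh fun A => ?_
  rw [Finsupp.single_apply]
  split_ifs
  · exact hhc
  · rw [mul_zero]
    exact (PP p n T).zero_mem

theorem ZZ_prod {M L : Finset (Pt n → ZMod p)} {c : Pt n → ZMod p} (hc : ZZ Φ T S 𝓜 M c) (hL : L ∈ 𝓜) (hM : M ∪ L ∈ 𝓜) :
    ZZ Φ T S 𝓜 (M ∪ L) c := by
  unfold ZZ
  have h1 : (Finsupp.single (M ∪ L) c : PLine p n) = PLine.times (Finsupp.single M c) L := by
    unfold PLine.times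
    rw [Finsupp.mapDomain_single]
  rw [h1]
  refine PDerives.prod hc hL fun A hA => ?_
  rw [Finset.mem_singleton.1 (Finsupp.support_single_subset hA)]
  exact hM

theorem ZZ_span {M M' : Finset (Pt n → ZMod p)} {c : Pt n → ZMod p} (hc : ZZ Φ T S 𝓜 M c) (hcT : c ∈ PP p n T)
    (hM : M ∈ 𝓜) (hM' : M' ∈ 𝓜)
    (hs : Submodule.span (ZMod p) {u | ∃ g ∈ M', u = 1 - g} = Submodule.span (ZMod p) {u | ∃ g ∈ M, u = 1 - g}) :
    ZZ Φ T S 𝓜 M' c := by
  have h0 : ∀ A, c * ((Finsupp.single M' 1 - Finsupp.single M 1 : PLine p n) A) =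
      (Finsupp.single M' c - Finsupp.single M c : PLine p n) A := by
    intro A
    rw [Finsupp.sub_apply, Finsupp.sub_apply, Finsupp.single_apply, Finsupp.single_apply, Finsupp.single_apply,
      Finsupp.single_apply, mul_sub, mul_ite, mul_ite, mul_one, mul_zero]
  have h1 : PDerives Φ T S 𝓜 (Finsupp.single M' c - Finsupp.single M c : PLine p n) := by
    have h2 : (Finsupp.single M' c - Finsupp.single M c : PLine p n) =
        PLine.coef (Finsupp.single M' 1 - Finsupp.single M 1) c := by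
      ext1 A
      unfold PLine.coef
      rw [Finsupp.mapRange_apply]
      exact (h0 A).symm
    rw [h2]
    refine PDerives.coef c (PDerives.span hM' hM hs) hcT fun A => ?_
    rw [h0, Finsupp.sub_apply, Finsupp.single_apply, Finsupp.single_apply]
    refine (PP p n T).sub_mem ?_ ?_
    · split_ifs
      · exact hcT
      · exact (PP p n T).zero_mem
    · split_ifs
      · exact hcT
      · exact (PP p n T).zero_mem
  have h3 := PDerives.add h1 hc
  rw [sub_add_cancel] at h3
  exact h3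

theorem ZZ_conv {A M : Finset (Pt n → ZMod p)} {c : Pt n → ZMod p} (hc : ZZ Φ T S 𝓜 (A ∪ M) c) (hcT : c ∈ PP p n T)
    (hcA : c * ∏ g ∈ A, g ∈ PP p n T) (hA : A.card ≤ S) (hAM : A ∪ M ∈ 𝓜) (hM : M ∈ 𝓜) :
    ZZ Φ T S 𝓜 M (c * ∏ g ∈ A, g) := by
  have h1 : PDerives Φ T S 𝓜 (PLine.times (Finsupp.single A (-c) + Finsupp.single ∅ (c * ∏ g ∈ A, g)) M) := by
    have hsupp : ∀ B ∈ (Finsupp.single A (-c) + Finsupp.single ∅ (c * ∏ g ∈ A, g) : PLine p n).support, B = A ∨ B = ∅ := by
      intro B hB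
      rcases Finset.mem_union.1 (Finsupp.support_add hB) with h | h
      · exact Or.inl (Finset.mem_singleton.1 (Finsupp.support_single_subset h))
      · exact Or.inr (Finset.mem_singleton.1 (Finsupp.support_single_subset h))
    refine PDerives.ident M _ (fun B => ?_) ?_ (fun x => ?_) (fun B hB => ?_)
    · show (Finsupp.single A (-c) + Finsupp.single ∅ (c * ∏ g ∈ A, g) : PLine p n) B ∈ PP p n T
      rw [Finsupp.add_apply, Finsupp.single_apply, Finsupp.single_apply]
      refine (PP p n T).add_mem ?_ ?_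
      · split_ifs
        · exact (PP p n T).neg_mem hcT
        · exact (PP p n T).zero_mem
      · split_ifs
        · exact hcA
        · exact (PP p n T).zero_mem
    · refine le_trans (Finset.card_le_card ?_) hA
      intro g hg
      obtain ⟨B, hB, hgB⟩ := Finset.mem_biUnion.1 hg
      rcases hsupp B hB with rfl | rfl
      · exact hgB
      · exact absurd hgB (Finset.notMem_empty _)
    · unfold PLine.val
      rw [Finsupp.sum_add_index' (fun _ => by rw [Pi.zero_apply, zero_mul]) (fun _ _ _ => by rw [Pi.add_apply, add_mul]),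
        Finsupp.sum_single_index (by rw [Pi.zero_apply, zero_mul]),
        Finsupp.sum_single_index (by rw [Pi.zero_apply, zero_mul]), Finset.prod_empty, mul_one, Pi.neg_apply,
        Pi.mul_apply, Finset.prod_apply]
      ring
    · rcases hsupp B hB with rfl | rfl
      · exact hAM
      · rw [Finset.empty_union]
        exact hM
  have h2 : PLine.times (Finsupp.single A (-c) + Finsupp.single ∅ (c * ∏ g ∈ A, g)) M =
      (Finsupp.single (A ∪ M) (-c) + Finsupp.single M (c * ∏ g ∈ A, g) : PLine p n) := by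
    unfold PLine.times
    rw [Finsupp.mapDomain_add, Finsupp.mapDomain_single, Finsupp.mapDomain_single, Finset.empty_union]
  rw [h2] at h1
  have h3 := PDerives.add hc h1
  rw [← add_assoc, ← Finsupp.single_add, add_neg_cancel, Finsupp.single_zero, zero_add] at h3
  exact h3

theorem ZZ_cond {M : Finset (Pt n → ZMod p)} {g : Pt n → ZMod p} (hg : ∀ x, g x = 0 ∨ g x = 1) (hgT : g ∈ PP p n T)
    (hgM : 1 - g ∈ M) (hS : 1 ≤ S) (hM : M ∈ 𝓜) : ZZ Φ T S 𝓜 M g := by
  have h1 : PDerives Φ T S 𝓜 (PLine.times (Finsupp.single {1 - g} g) M) := by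
    refine PDerives.ident M _ (fun B => ?_) ?_ (fun x => ?_) (fun B hB => ?_)
    · show (Finsupp.single {1 - g} g : PLine p n) B ∈ PP p n T
      rw [Finsupp.single_apply]
      split_ifs
      · exact hgT
      · exact (PP p n T).zero_mem
    · refine le_trans (Finset.card_le_card (t := {1 - g}) ?_) (by rw [Finset.card_singleton]; exact hS)
      intro h hh
      obtain ⟨B, hB, hgB⟩ := Finset.mem_biUnion.1 hh
      rw [Finset.mem_singleton.1 (Finsupp.support_single_subset hB)] at hgB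
      exact hgB
    · unfold PLine.val
      rw [Finsupp.sum_single_index (by rw [Pi.zero_apply, zero_mul]), Finset.prod_singleton, Pi.sub_apply, Pi.one_apply]
      rcases hg x with h | h <;> rw [h] <;> ring
    · rw [Finset.mem_singleton.1 (Finsupp.support_single_subset hB), Finset.union_eq_right.2 (Finset.singleton_subset_iff.2 hgM)]
      exact hM
  have h2 : PLine.times (Finsupp.single {1 - g} g) M = (Finsupp.single M g : PLine p n) := by
    unfold PLine.times
    rw [Finsupp.mapDomain_single, Finset.union_eq_right.2 (Finset.singleton_subset_iff.2 hgM)]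
  rw [h2] at h1
  exact h1

theorem ZZ_span_cond {M : Finset (Pt n → ZMod p)} {E : Set (Pt n → ZMod p)} {e : ℕ} (hE : ∀ g ∈ E, Cond e g ∧ 1 - g ∈ M)
    (heT : e ≤ T) (hS : 1 ≤ S) (hM : M ∈ 𝓜) {g : Pt n → ZMod p} (hg : g ∈ Submodule.span (ZMod p) E) :
    ZZ Φ T S 𝓜 M g := by
  have hdeg : ∀ g ∈ Submodule.span (ZMod p) E, g ∈ PP p n e := by
    intro g hg
    have : Submodule.span (ZMod p) E ≤ PP p n e := Submodule.span_le.2 fun g hg => (hE g hg).1.1
    exact this hg
  induction hg using Submodule.span_induction with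
  | mem g hg => exact ZZ_cond (hE g hg).1.2 (PP_mono heT (hE g hg).1.1) (hE g hg).2 hS hM
  | zero =>
    have h1 : ZZ Φ T S 𝓜 M (0 : Pt n → ZMod p) := by
      have h2 : PDerives Φ T S 𝓜 (PLine.times (0 : PLine p n) M) := by
        refine PDerives.ident M 0 (fun B => ?_) ?_ (fun x => ?_) (fun B hB => ?_)
        · exact (PP p n T).zero_mem
        · simp
        · unfold PLine.val
          rw [Finsupp.sum_zero_index]
        · simp at hB
      unfold ZZ
      rw [Finsupp.single_zero]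
      unfold PLine.times at h2
      rw [Finsupp.mapDomain_zero] at h2
      exact h2
    exact h1
  | add x y _ _ h1 h2 => exact ZZ_add h1 h2
  | smul c x hx h1 =>
    have h2 : c • x = (c • (1 : Pt n → ZMod p)) * x := by rw [smul_mul_assoc, one_mul]
    rw [h2]
    refine ZZ_mul h1 ((PP p n T).smul_mem c (PP_mono (Nat.zero_le T) PP_one)) ?_
    rw [← h2]
    exact (PP p n T).smul_mem c (PP_mono heT (hdeg x hx))

theorem ZZ_comb {ι : Type} {M : Finset (Pt n → ZMod p)} {b δ : ℕ} {w : Pt n → ZMod p} (hw : w ∈ PP p n b)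
    (z : ι → Pt n → ZMod p) (I : Finset ι) (hz : ∀ i ∈ I, z i ∈ PP p n δ) (hZ : ∀ i ∈ I, ZZ Φ T S 𝓜 M (z i))
    (h0 : ZZ Φ T S 𝓜 M 0) (hd : b + δ * I.card ≤ T) :
    ZZ Φ T S 𝓜 M (w - w * ∏ i ∈ I, (1 - z i)) ∧ ∏ i ∈ I, (1 - z i) ∈ PP p n (δ * I.card) := by
  induction I using Finset.induction_on with
  | empty =>
    rw [Finset.prod_empty, mul_one, sub_self, Finset.card_empty, mul_zero]
    exact ⟨h0, PP_one⟩
  | insert i I hi ih =>
    rw [Finset.card_insert_of_notMem hi, Nat.mul_succ] at hd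
    obtain ⟨h1, h2⟩ := ih (fun j hj => hz j (Finset.mem_insert_of_mem hj)) (fun j hj => hZ j (Finset.mem_insert_of_mem hj))
      (by omega)
    have hzi := hz i (Finset.mem_insert_self i I)
    rw [Finset.prod_insert hi, Finset.card_insert_of_notMem hi, Nat.mul_succ, add_comm (δ * I.card)]
    refine ⟨?_, PP_mul ((PP p n δ).sub_mem (PP_mono (Nat.zero_le δ) PP_one) hzi) h2⟩
    have h3 : w - w * ((1 - z i) * ∏ j ∈ I, (1 - z j)) =
        (w - w * ∏ j ∈ I, (1 - z j)) + (w * ∏ j ∈ I, (1 - z j)) * z i := by ring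
    rw [h3]
    refine ZZ_add h1 (ZZ_mul (hZ i (Finset.mem_insert_self i I)) (PP_mono (by omega) (PP_mul hw h2)) ?_)
    exact PP_mono (by omega) (PP_mul (PP_mul hw h2) hzi)

end rules

end SizeDegree
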